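import Pool.Agent.J4.H6.SI.Main
import Pool.Agent.J4.H6.FR.Algo

/-!
# The theorem for characteristics of index dividing four: end of the proof
-/

set_option linter.unusedSectionVars false

namespace Pool.Agent.J4.H6.SI

open Finset Pool.Agent.H916R2 Pool.Agent.H916T Pool.Agent.H916U Pool.Agent.H916Z Pool.Agent.H916Q
  Pool.Agent.H916Y Pool.Agent.TH540 Pool.Agent.N214.FT

/-- the condition for the prime three -/
def C3 (p q : ℕ) : Prop := q % 8 = 5 ∨ q % 12 = 7 ∨ (q % 12 = 11 ∧ p % 3 = 2)

/-- the degrees with prime divisors two and `q`, and for many `q` also three -/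
def Deg (p q m : ℕ) : Prop :=
  ∀ r : ℕ, r.Prime → r ∣ m → r = 2 ∨ r = q ∨ (r = 3 ∧ C3 p q)

lemma jac_of_square {p q : ℕ} [Fact q.Prime] (hpq : (p : ZMod q) ≠ 0) :
    (jacobiSym p q = 1 ↔ IsSquare (p : ZMod q)) ∧ (jacobiSym p q = 1 ∨ jacobiSym p q = -1) := by
  rw [jac_prime]
  have h0 : ((p : ℤ) : ZMod q) ≠ 0 := by push_cast; exact hpq
  refine ⟨?_, legendreSym.eq_one_or_neg_one q h0⟩
  rw [legendreSym.eq_one_iff q h0]
  push_cast
  exact Iff.rfl

lemma jac_three {p : ℕ} (h : p % 3 ≠ 0) :
    (jacobiSym p 3 = 1 ↔ p % 3 = 1) ∧ (jacobiSym p 3 = 1 ∨ jacobiSym p 3 = -1) := by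
  rcases (by omega : p % 3 = 1 ∨ p % 3 = 2) with h | h
  · rw [jac_of_mod h]
    exact ⟨⟨fun _ => h, fun _ => by decide +kernel⟩, Or.inl (by decide +kernel)⟩
  · rw [jac_of_mod h]
    exact ⟨⟨fun h' => absurd h' (by decide +kernel), fun h' => by omega⟩,
      Or.inr (by decide +kernel)⟩

variable {p q m : ℕ}

lemma C3.ne (h : C3 p q) : q ≠ 3 := by
  unfold C3 at h
  omega

lemma supp_cases (hdeg : Deg p q m) {S : Finset ℕ} (hne : S.Nonempty) (h2 : 2 ∉ S)
    (hSm : S ⊆ m.primeFactors) :
    (S = {q}) ∨ (S = {3} ∧ q ≠ 3 ∧ 3 ∣ m ∧ C3 p q) ∨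
      (S = {3, q} ∧ q ≠ 3 ∧ 3 ∣ m ∧ q ∣ m ∧ C3 p q) := by
  have h1 : ∀ r ∈ S, r = q ∨ (r = 3 ∧ C3 p q) := by
    intro r hr
    have h := hdeg r (Nat.prime_of_mem_primeFactors (hSm hr)) (Nat.dvd_of_mem_primeFactors (hSm hr))
    rcases h with h | h | h
    · exact absurd (h ▸ hr) h2
    · exact Or.inl h
    · exact Or.inr h
  by_cases hc : C3 p q ∧ 3 ∈ S
  · obtain ⟨hc, h3⟩ := hc
    have hq3 : q ≠ 3 := hc.ne
    have h3m := Nat.dvd_of_mem_primeFactors (hSm h3)
    by_cases hq : q ∈ S
    · right; right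
      refine ⟨?_, hq3, h3m, Nat.dvd_of_mem_primeFactors (hSm hq), hc⟩
      ext r
      rw [mem_insert, mem_singleton]
      constructor
      · intro hr
        rcases h1 r hr with h | h
        · exact Or.inr h
        · exact Or.inl h.1
      · rintro (rfl | rfl)
        · exact h3
        · exact hq
    · right; left
      refine ⟨?_, hq3, h3m, hc⟩
      ext r
      rw [mem_singleton]
      constructor
      · intro hr
        rcases h1 r hr with h | h
        · exact absurd (h ▸ hr) hq
        · exact h.1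
      · rintro rfl
        exact h3
  · left
    have h4 : ∀ r ∈ S, r = q := by
      intro r hr
      rcases h1 r hr with h | h
      · exact h
      · exact absurd ⟨h.2, h.1 ▸ hr⟩ hc
    exact Finset.eq_singleton_iff_nonempty_unique_mem.mpr ⟨hne, h4⟩

theorem main_aux (hp : p.Prime) (hq : q.Prime) (hq2 : q ≠ 2) (hm : 0 < m) (hpm : p.Coprime m)
    (hidx : (q - 1) ∣ 4 * orderOf (p : ZMod q)) (hdeg : Deg p q m)
    {s : Multiset (ZMod m)} (hs : IsTate p m s) (hne : s ≠ 0)
    (hev : q % 24 = 7 → Odd (orderOf (p : ZMod q)) → Even (s.countP (Supp {3, q}))) :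
    ∃ N : ℕ, 0 < N ∧ p.Coprime N ∧ ∀ M : ℕ, N * m = M →
      H916T.Generated M (ZBase p M) (s.map (iota N : ZMod m → ZMod M)) := by
  classical
  have hz : NeZero m := ⟨hm.ne'⟩
  have hFq : Fact q.Prime := ⟨hq⟩
  have hqodd : q % 2 = 1 := hq.eq_two_or_odd.resolve_left hq2
  have hrel : Rel0 p s := fun t => hs.W_sum hpm t
  set k : ℕ := if p = 2 then 1 else if p = 3 then 8 else 24 with hk
  have hk0 : 0 < k := by rw [hk]; split_ifs <;> norm_num
  have hpk : p.Coprime k := by
    rw [hk]
    split_ifs with h2 h3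
    · exact Nat.coprime_one_right _
    · rw [h3]; norm_num
    · rw [hp.coprime_iff_not_dvd, show (24 : ℕ) = 2 ^ 3 * 3 by norm_num, hp.dvd_mul]
      rintro (h | h)
      · exact h2 ((Nat.prime_dvd_prime_iff_eq hp Nat.prime_two).mp (hp.dvd_of_dvd_pow h))
      · exact h3 ((Nat.prime_dvd_prime_iff_eq hp Nat.prime_three).mp h)
  have hk8 : p ≠ 2 → 8 ∣ k * m := by
    intro h2
    apply Dvd.dvd.mul_right
    rw [hk, if_neg h2]
    split_ifs <;> norm_num
  have hk24 : 3 ∣ m → p ≠ 2 → 24 ∣ k * m := by
    intro h3 h2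
    have hp3 : p ≠ 3 := by
      rintro rfl
      exact (Nat.prime_three.coprime_iff_not_dvd.mp hpm) h3
    rw [hk, if_neg h2, if_neg hp3]
    exact Dvd.intro _ rfl
  have hp3 : 3 ∣ m → p % 3 ≠ 0 := by
    intro h3 h
    have h1 := (Nat.prime_dvd_prime_iff_eq Nat.prime_three hp).mp (Nat.dvd_of_mod_eq_zero h)
    rw [← h1] at hpm
    exact (Nat.prime_three.coprime_iff_not_dvd.mp hpm) h3
  have hbig : ∀ V : Finset ℕ, ¬ Even (s.countP (Supp V)) → V ⊆ m.primeFactors := by
    intro V hV
    exact (FR.supp_primes' hV).2.1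
  refine main_even hp hm hpm hk0 hpk hs hne ?_
  intro S hSne h2S hSm hD
  rcases supp_cases hdeg hSne h2S hSm with rfl | ⟨rfl, hq3, h3m, hc⟩ | ⟨rfl, hq3, h3m, hqm, hc⟩
  · -- the support `q`
    have hqm : q ∣ m := Nat.dvd_of_mem_primeFactors (hSm (mem_singleton_self q))
    have hpq : (p : ZMod q) ≠ 0 := p_ne hpm hqm
    have ho : Odd (orderOf (p : ZMod q)) := by
      rw [← Nat.not_even_iff_odd]
      exact fun he => hD (dead_q hpq he)
    by_cases hq23 : q % 24 = 23
    · left
      refine even_rec hm hpm hrel hSne h2S hSm ⟨?_, ?_, ?_⟩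
      · rw [prod_singleton]; omega
      · rw [prod_singleton]; exact (jac_of_square hpq).1.mpr (square_of_odd ho)
      · intro j hj hjm hjS _
        rw [prod_singleton] at hjS ⊢
        rcases hdeg j hj hjm with h | h | h
        · rw [h]; exact_mod_cast jac_two hq (by omega)
        · exact absurd (h ▸ dvd_rfl) hjS
        · rw [h.1]
          have h5 := jacobiSym.quadratic_reciprocity_three_mod_four (a := 3) (b := q)
            (by norm_num) (by omega)
          rw [h5, jac_of_mod (a := q) (b := 3) (c := 2) (by omega)]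
          decide +kernel
    by_cases hq7 : q % 8 = 7
    · left
      have hq24 : q % 24 = 7 := by
        have h15 : q % 24 ≠ 15 := by
          intro h
          have h3q : 3 ∣ q := by omega
          have := (Nat.prime_dvd_prime_iff_eq Nat.prime_three hq).mp h3q
          omega
        omega
      refine FR.even_supp hpm hrel hSm h2S hSne ?_ ?_ ?_ ?_ ?_
      · rw [prod_singleton]; exact jac_neg hq hq7
      · rw [prod_singleton]; exact (jac_of_square hpq).1.mpr (square_of_odd ho)
      · intro _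
        rw [prod_singleton]; exact_mod_cast jac_two hq hq7
      · intro j hj hj2 hjS hJ
        have h := hdeg j (Nat.prime_of_mem_primeFactors hj) (Nat.dvd_of_mem_primeFactors hj)
        rcases h with h | h | h
        · exact absurd h hj2
        · exact absurd (mem_singleton.mpr h) hjS
        · rw [h.1]
      · intro V hV h2V
        by_contra hodd
        have hVm := hbig V hodd
        rcases supp_cases hdeg (hSne.mono hV.1) h2V hVm with rfl | ⟨rfl, hq3, _⟩ | ⟨rfl, hq3, _, _, hc⟩
        · exact hV.ne rfl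
        · exact hq3 (mem_singleton.mp (hV.1 (mem_singleton_self q)))
        · exact hodd (hev hq24 ho)
    · right
      intro _ u hu
      rw [prod_singleton] at hu
      exact fix_q hp (Nat.Coprime.mul_right hpk hpm) hk8 hq2 hq7 hidx ho hu
  · -- the support `3`
    right
    intro _ u hu
    rw [prod_singleton] at hu
    have h3 := hp3 h3m
    have h31 : p % 3 = 1 := by
      by_contra h
      apply hD
      refine ⟨1, ?_⟩
      rw [prod_singleton, pow_one]
      omega
    have hp2 : p ≠ 2 := by rintro rfl; omega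
    exact fix_3 (Nat.Coprime.mul_right hpk hpm) (hk24 h3m hp2) h31
      (hp.eq_two_or_odd.resolve_left hp2) hu
  · -- the support `3, q`
    have hpq : (p : ZMod q) ≠ 0 := p_ne hpm hqm
    have hprod : ∏ r ∈ ({3, q} : Finset ℕ), r = 3 * q := by
      rw [prod_insert (by rw [mem_singleton]; exact hq3.symm), prod_singleton]
    have h3k : 3 ∣ k * m := h3m.mul_left k
    rcases hc with hq8 | hq12 | ⟨hq12, hp32⟩
    · by_cases hJ : p % 3 = 1 ↔ IsSquare (p : ZMod q)
      · left
        have hodd3 : Odd (3 * q) := by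
          rw [Nat.odd_iff]; omega
        refine FR.even_supp hpm hrel hSm h2S hSne ?_ ?_ ?_ ?_ ?_
        · rw [hprod, jacobiSym.at_neg_one hodd3, ZMod.χ₄_nat_three_mod_four (by omega)]
        · rw [hprod, jacobiSym.mul_right]
          obtain ⟨a1, a2⟩ := jac_three (hp3 h3m)
          obtain ⟨b1, b2⟩ := jac_of_square (p := p) hpq
          by_cases h : p % 3 = 1
          · rw [a1.mpr h, b1.mpr (hJ.mp h)]; norm_num
          · rw [a2.resolve_left (fun h' => h (a1.mp h')),
              b2.resolve_left (fun h' => h (hJ.mpr (b1.mp h')))]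
            norm_num
        · intro _
          rw [hprod, jacobiSym.at_two hodd3, ZMod.χ₈_nat_eq_if_mod_eight,
            if_neg (by omega), if_pos (by omega)]
        · intro j hj hj2 hjS
          exfalso
          have h := hdeg j (Nat.prime_of_mem_primeFactors hj) (Nat.dvd_of_mem_primeFactors hj)
          rcases h with h | h | h
          · exact hj2 h
          · exact hjS (by rw [h]; simp)
          · exact hjS (by rw [h.1]; simp)
        · intro V hV h2V
          by_contra hodd
          have hVm := hbig V hodd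
          have hq3V : q ∈ V ∧ 3 ∈ V := ⟨hV.1 (by simp), hV.1 (by simp)⟩
          rcases supp_cases hdeg (hSne.mono hV.1) h2V hVm with rfl | ⟨rfl, hq3, _⟩ | ⟨rfl, _⟩
          · exact hq3 (mem_singleton.mp hq3V.2).symm
          · exact hq3 (mem_singleton.mp hq3V.1)
          · exact hV.ne rfl
      · right
        intro _ u hu
        rw [hprod] at hu
        exact fix_3q5 hp (Nat.Coprime.mul_right hpk hpm) (hk24 h3m) hq8 hidx (hp3 h3m) hD hJ hu
    · by_cases h24 : q % 24 = 7 ∧ Odd (orderOf (p : ZMod q))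
      · exact Or.inl (hev h24.1 h24.2)
      · right
        intro _ u hu
        rw [hprod] at hu
        refine fix_3q7 hp (Nat.Coprime.mul_right hpk hpm) (hk24 h3m) h3k hq12 hidx (hp3 h3m) hD
          ?_ hu
        intro h
        rw [← Nat.not_odd_iff_even]
        exact fun ho => h24 ⟨h, ho⟩
    · right
      intro _ u hu
      rw [hprod] at hu
      exact fix_3q11 (Nat.Coprime.mul_right hpk hpm) hq12 hidx hp32 hD hu

/-- **The theorem for characteristics of index dividing four.** -/
theorem main (hp : p.Prime) (hq : q.Prime) (hq2 : q ≠ 2) (hm : 0 < m) (hpm : p.Coprime m)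
    (hidx : (q - 1) ∣ 4 * orderOf (p : ZMod q)) (hdeg : Deg p q m)
    {s : Multiset (ZMod m)} (hs : IsTate p m s) (hne : s ≠ 0) :
    ∃ N : ℕ, 0 < N ∧ p.Coprime N ∧ ∀ M : ℕ, N * m = M →
      H916T.Generated M (ZBase p M) (s.map (iota N : ZMod m → ZMod M)) := by
  classical
  have hz : NeZero m := ⟨hm.ne'⟩
  have hFq : Fact q.Prime := ⟨hq⟩
  by_cases hodd : q % 24 = 7 ∧ Odd (orderOf (p : ZMod q)) ∧ ¬ Even (s.countP (Supp {3, q}))
  · obtain ⟨h24, ho, hcount⟩ := hodd
    have hsub := (FR.supp_primes' hcount).2.1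
    have h3m : 3 ∣ m := Nat.dvd_of_mem_primeFactors (hsub (by simp))
    have hqm : q ∣ m := Nat.dvd_of_mem_primeFactors (hsub (by simp))
    obtain ⟨a, b, c, v, hT, ha, hb, hc, hv⟩ := surf_E hpm h3m hqm (by omega) hidx ho
    have hq3 : q ≠ 3 := by omega
    have hpf : (q * 3).primeFactors = {3, q} := by
      rw [Nat.primeFactors_mul hq.ne_zero (by norm_num), hq.primeFactors,
        Nat.prime_three.primeFactors]
      ext r
      simp only [mem_union, mem_singleton, mem_insert]
      exact or_comm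
    have hsv : ¬ Supp {3, q} v := by
      unfold Supp
      rw [hv, hq.primeFactors]
      intro h
      have : (3 : ℕ) ∈ ({q} : Finset ℕ) := by rw [h]; simp
      exact hq3 (mem_singleton.mp this).symm
    have hcT : ({a, b, c, v} : Multiset (ZMod m)).countP (Supp {3, q}) = 3 := by
      have h5 : ({a, b, c, v} : Multiset (ZMod m)) = a ::ₘ b ::ₘ c ::ₘ v ::ₘ 0 := rfl
      have sa : Supp {3, q} a := by unfold Supp; rw [ha, hpf]
      have sb : Supp {3, q} b := by unfold Supp; rw [hb, hpf]
      have sc : Supp {3, q} c := by unfold Supp; rw [hc, hpf]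
      rw [h5, Multiset.countP_cons, Multiset.countP_cons, Multiset.countP_cons,
        Multiset.countP_cons, Multiset.countP_zero, if_neg hsv, if_pos sc, if_pos sb, if_pos sa]
    have hs1 : IsTate p m (s + {a, b, c, v}) := isTate_add hpm hs hT.1
    have hne1 : s + {a, b, c, v} ≠ 0 := by
      intro h
      have h2 := congrArg Multiset.card h
      rw [Multiset.card_add, Multiset.card_zero] at h2
      exact hne (Multiset.card_eq_zero.mp (by omega))
    obtain ⟨N, hN, hpN, H⟩ := main_aux hp hq hq2 hm hpm hidx hdeg hs1 hne1 (by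
      intro _ _
      rw [Multiset.countP_add, hcT]
      rw [Nat.not_even_iff_odd] at hcount
      exact hcount.add_odd (by decide))
    refine ⟨N, hN, hpN, ?_⟩
    intro M hM
    have hMpos : 0 < M := by rw [← hM]; exact Nat.mul_pos hN hm
    have hzM : NeZero M := ⟨hMpos.ne'⟩
    have hpM : p.Coprime M := by rw [← hM]; exact Nat.Coprime.mul_right hpN hpm
    have h2 := H M hM
    rw [Multiset.map_add] at h2
    refine remove_base {(({a, b, c, v} : Multiset (ZMod m)).map (iota N : ZMod m → ZMod M))} ?_ _ ?_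
    · intro x hx
      rw [Multiset.mem_singleton.mp hx]
      exact Or.inl ((surface_iota hM hpM hT).neg hpM)
    · rw [Multiset.sum_singleton]
      exact h2
  · refine main_aux hp hq hq2 hm hpm hidx hdeg hs hne ?_
    intro h1 h2
    by_contra h3
    exact hodd ⟨h1, h2, h3⟩

end Pool.Agent.J4.H6.SI
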