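import Pool.Agent.J4.H6.FR.Rel

/-!
# Functions on cyclic groups invariant under two elements, and sums over a prime
-/

set_option linter.unusedSectionVars false

namespace Pool.Agent.J4.H6.SI

open Finset Pool.Agent.H916R2 Pool.Agent.H916T Pool.Agent.H916U Pool.Agent.H916Z Pool.Agent.H916Q
  Pool.Agent.TH540

section group

variable {G : Type} [CommGroup G] [Finite G] {a : G}

lemma index_four (h : Nat.card G ∣ 4 * orderOf a) : (Subgroup.zpowers a).index ∣ 4 := by
  have h1 := Subgroup.index_mul_card (Subgroup.zpowers a)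
  rw [Nat.card_zpowers] at h1
  rw [← h1] at h
  exact Nat.dvd_of_mul_dvd_mul_right (orderOf_pos a) h

lemma four_mem (h : Nat.card G ∣ 4 * orderOf a) (y : G) : y ^ 4 ∈ Subgroup.zpowers a := by
  obtain ⟨c, hc⟩ := index_four h
  rw [hc, pow_mul]
  exact Subgroup.pow_mem _ (Subgroup.pow_index_mem _ y) c

/-- a subgroup of index dividing four containing a nonsquare is everything -/
lemma top_of [IsCyclic G] {b : G} (ha : Nat.card G ∣ 4 * orderOf a) (hb : ¬ IsSquare b)
    (K : Subgroup G) (haK : a ∈ K) (hbK : b ∈ K) : K = ⊤ := by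
  have hzK : Subgroup.zpowers a ≤ K := by
    rw [Subgroup.zpowers_le]; exact haK
  obtain ⟨g, hg⟩ := IsCyclic.exists_generator (α := G)
  have hg4 : g ^ 4 ∈ K := hzK (four_mem ha g)
  obtain ⟨j, hj⟩ := Subgroup.mem_zpowers_iff.mp (hg b)
  have hjodd : j % 2 = 1 := by
    by_contra h
    apply hb
    refine ⟨g ^ (j / 2), ?_⟩
    rw [← zpow_add, ← hj]
    congr 1
    omega
  have hgj : g ^ j ∈ K := by rw [hj]; exact hbK
  have hgK : g ∈ K := by
    rcases (by omega : j % 4 = 1 ∨ j % 4 = 3) with h | h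
    · have h3 : g = g ^ j * (g ^ 4) ^ (-(j / 4)) := by
        have h4 : (g ^ 4) ^ (-(j / 4)) = g ^ (4 * (-(j / 4)) : ℤ) := by
          rw [zpow_mul]; norm_cast
        rw [h4, ← zpow_add]
        conv_lhs => rw [← zpow_one g]
        congr 1
        omega
      rw [h3]
      exact K.mul_mem hgj (K.zpow_mem hg4 _)
    · have h3 : g = (g ^ 4) ^ (j / 4 + 1) * (g ^ j)⁻¹ := by
        have h4 : (g ^ 4) ^ (j / 4 + 1) = g ^ (4 * (j / 4 + 1) : ℤ) := by
          rw [zpow_mul]; norm_cast
        rw [h4, ← zpow_neg, ← zpow_add]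
        conv_lhs => rw [← zpow_one g]
        congr 1
        omega
      rw [h3]
      exact K.mul_mem (K.zpow_mem hg4 _) (K.inv_mem hgj)
  rw [Subgroup.eq_top_iff']
  intro z
  obtain ⟨i, hi⟩ := Subgroup.mem_zpowers_iff.mp (hg z)
  rw [← hi]
  exact K.zpow_mem hgK i

/-- functions invariant under two elements are constant -/
lemma const_of [IsCyclic G] {b : G} (ha : Nat.card G ∣ 4 * orderOf a) (hb : ¬ IsSquare b)
    (f : G → ℤ) (h1 : ∀ x, f (a * x) = f x) (h2 : ∀ x, f (b * x) = f x) (x y : G) :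
    f x = f y := by
  let K : Subgroup G :=
    { carrier := {g | ∀ x, f (g * x) = f x}
      one_mem' := by intro x; rw [one_mul]
      mul_mem' := by
        intro g h hg hh x
        rw [mul_assoc, hg, hh]
      inv_mem' := by
        intro g hg x
        have := hg (g⁻¹ * x)
        rw [mul_inv_cancel_left] at this
        exact this.symm }
  have hK := top_of ha hb K h1 h2
  have h4 : x * y⁻¹ ∈ K := by rw [hK]; exact Subgroup.mem_top _
  have h5 : f (x * y⁻¹ * y) = f y := h4 y
  rwa [inv_mul_cancel_right] at h5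

/-- an invariant function with sum zero vanishes -/
lemma zero_of [Fintype G] [IsCyclic G] {b : G} (ha : Nat.card G ∣ 4 * orderOf a)
    (hb : ¬ IsSquare b) (f : G → ℤ) (h1 : ∀ x, f (a * x) = f x) (h2 : ∀ x, f (b * x) = f x)
    (h0 : ∑ x, f x = 0) (x : G) : f x = 0 := by
  have h3 : ∑ y, f y = (Fintype.card G : ℤ) * f x := by
    rw [Finset.sum_congr rfl (fun y _ => const_of ha hb f h1 h2 y x), sum_const, card_univ,
      nsmul_eq_mul]
  rw [h0] at h3
  have h4 : (Fintype.card G : ℤ) ≠ 0 := by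
    have := Fintype.card_pos_iff.mpr (⟨x⟩ : Nonempty G)
    omega
  exact (mul_eq_zero.mp h3.symm).resolve_left h4

end group

section hom

variable {M q : ℕ}

/-- the homomorphism with a given value at one -/
def ph (v : ZMod M) (hv : (q : ZMod M) * v = 0) : ZMod q →+ ZMod M :=
  ZMod.lift q ⟨(AddMonoidHom.mulRight v).comp (Int.castAddHom (ZMod M)), by
    simp [hv]⟩

lemma ph_int {v : ZMod M} (hv : (q : ZMod M) * v = 0) (n : ℤ) :
    ph v hv (n : ZMod q) = (n : ZMod M) * v := by
  unfold ph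
  rw [ZMod.lift_coe]
  simp

lemma ph_nat {v : ZMod M} (hv : (q : ZMod M) * v = 0) (n : ℕ) :
    ph v hv (n : ZMod q) = (n : ZMod M) * v := by
  have := ph_int hv (n : ℤ)
  push_cast at this
  exact this

lemma ph_one {v : ZMod M} (hv : (q : ZMod M) * v = 0) : ph v hv 1 = v := by
  have := ph_nat hv 1
  rw [Nat.cast_one, Nat.cast_one, one_mul] at this
  exact this

lemma ph_mul {v : ZMod M} (hv : (q : ZMod M) * v = 0) [NeZero q] (n : ℕ) (x : ZMod q) :
    ph v hv ((n : ZMod q) * x) = (n : ZMod M) * ph v hv x := by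
  have h1 : (n : ZMod q) * x = n • x := (nsmul_eq_mul n x).symm
  rw [h1, map_nsmul, nsmul_eq_mul]

lemma ph_two {v : ZMod M} (hv : (q : ZMod M) * v = 0) (x : ZMod q) :
    ph v hv (2 * x) = 2 * ph v hv x := by
  rw [two_mul, two_mul, map_add]

lemma ph_three {v : ZMod M} (hv : (q : ZMod M) * v = 0) (x : ZMod q) :
    ph v hv (3 * x) = 3 * ph v hv x := by
  have h1 : (3 : ZMod q) * x = 2 * x + x := by ring
  rw [h1, map_add, ph_two]
  ring

lemma ph_four {v : ZMod M} (hv : (q : ZMod M) * v = 0) (x : ZMod q) :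
    ph v hv (4 * x) = 4 * ph v hv x := by
  have h1 : (4 : ZMod q) * x = 2 * (2 * x) := by ring
  rw [h1, ph_two, ph_two]
  ring

end hom

section sums

variable {q : ℕ}

lemma sum_zmod (hq : 0 < q) [NeZero q] (f : ZMod q → ℤ) :
    ∑ i ∈ range q, f (i : ZMod q) = ∑ x : ZMod q, f x := by
  refine Finset.sum_bij' (fun i _ => (i : ZMod q)) (fun x _ => x.val) (fun _ _ => mem_univ _)
    (fun x _ => mem_range.mpr (ZMod.val_lt x)) ?_ ?_ (fun _ _ => rfl)
  · intro i hi
    exact ZMod.val_cast_of_lt (mem_range.mp hi)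
  · intro x _
    exact ZMod.natCast_zmod_val x

lemma sum_units [Fact q.Prime] (f : ZMod q → ℤ) :
    ∑ x : ZMod q, f x = f 0 + ∑ y : (ZMod q)ˣ, f (y : ZMod q) := by
  classical
  rw [← Finset.add_sum_erase univ f (mem_univ 0)]
  congr 1
  symm
  refine Finset.sum_bij (fun y _ => (y : ZMod q)) ?_ ?_ ?_ (fun _ _ => rfl)
  · intro y _
    exact mem_erase.mpr ⟨y.ne_zero, mem_univ _⟩
  · intro y _ z _ h
    exact Units.ext h
  · intro x hx
    exact ⟨Units.mk0 x (mem_erase.mp hx).1, mem_univ _, rfl⟩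

end sums

variable {p M : ℕ} [NeZero M]

/-- the distribution relation at a prime -/
lemma dist_units {V : ZMod M → ℤ} (hV : DF p V) {q e : ℕ} [Fact q.Prime] (he : q * e = M)
    (hv : (q : ZMod M) * (e : ZMod M) = 0) (a : ZMod M) :
    ∑ y : (ZMod q)ˣ, V (a + ph (e : ZMod M) hv (y : ZMod q)) = V ((q : ZMod M) * a) - V a := by
  have hq := (Fact.out : q.Prime)
  have h1 := hV.dist q e he a
  have h2 : ∑ i ∈ range q, V (a + (i : ZMod M) * (e : ZMod M)) =
      ∑ i ∈ range q, V (a + ph (e : ZMod M) hv (i : ZMod q)) :=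
    Finset.sum_congr rfl fun i _ => by rw [ph_nat]
  rw [h2, sum_zmod hq.pos (fun x => V (a + ph (e : ZMod M) hv x)), sum_units, map_zero,
    add_zero] at h1
  linarith

/-- sums over units of a function of a multiple -/
lemma sum_mul_unit {q : ℕ} [Fact q.Prime] (f : ZMod q → ℤ) (c : (ZMod q)ˣ) :
    ∑ y : (ZMod q)ˣ, f ((c : ZMod q) * (y : ZMod q)) = ∑ y : (ZMod q)ˣ, f (y : ZMod q) := by
  have h := Fintype.sum_equiv (Equiv.mulLeft c) (fun y : (ZMod q)ˣ => f ((c * y : (ZMod q)ˣ) : ZMod q))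
    (fun y => f (y : ZMod q)) (fun y => rfl)
  simpa using h

end Pool.Agent.J4.H6.SI
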