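import Pool.Agent.J4.H6.SI.RelA

/-!
# Supports which can be corrected by surfaces: the new rules
-/

set_option linter.unusedSectionVars false

namespace Pool.Agent.J4.H6.SI

open Finset Pool.Agent.H916R2 Pool.Agent.H916T Pool.Agent.H916U Pool.Agent.H916Z Pool.Agent.H916Q
  Pool.Agent.TH540

variable {p M q : ℕ} [NeZero M] [Fact q.Prime] {u : ZMod M}

lemma order_e {e : ℕ} (he : q * e = M) : addOrderOf (e : ZMod M) = q := by
  have hq := (Fact.out : q.Prime)
  have h1 := order_elem (M := M) (Dvd.intro e he)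
  have h2 : M / q = e := by rw [← he]; exact Nat.mul_div_cancel_left e hq.pos
  rwa [h2] at h1

/-- the rule for minus four, characteristic one modulo four -/
theorem fix_A (hp : p.Coprime M) (h4 : 4 ∣ M) (hq8 : q % 8 = 5) (hp4 : p % 4 = 1)
    (hidx : (q - 1) ∣ 4 * orderOf (p : ZMod q)) (hu : addOrderOf u = q) : Fix p u := by
  have hq := (Fact.out : q.Prime)
  have hqM : q ∣ M := hu ▸ addOrderOf_dvd_level u
  obtain ⟨e, he'⟩ := hqM
  obtain ⟨d, hd'⟩ := h4
  have he : q * e = M := he'.symm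
  have hd : 4 * d = M := hd'.symm
  have hd2 : 2 * (2 * d) = M := by omega
  have hcast : ((2 * d : ℕ) : ZMod M) = 2 * (d : ZMod M) := by push_cast; rfl
  have hn2 : ¬ 2 ∣ q := by omega
  have hpq : (p : ZMod q) ≠ 0 := by
    intro h
    rw [ZMod.natCast_eq_zero_iff] at h
    have h1 := Nat.Coprime.coprime_dvd_right (Dvd.intro e he) hp
    exact hq.one_lt.ne' (Nat.eq_one_of_dvd_one (h1.gcd_eq_one ▸ Nat.dvd_gcd h dvd_rfl))
  have heo := order_e he
  have hnu := order_mul_zero heo
  have he0 : (e : ZMod M) ≠ 0 := ne_zero_of_order heo hq.one_lt.ne'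
  have hu0 : u ≠ 0 := ne_zero_of_order hu hq.one_lt.ne'
  have h4z : 4 * (d : ZMod M) = 0 := by
    have h1 : ((4 * d : ℕ) : ZMod M) = 0 := by rw [hd]; simp
    push_cast at h1
    exact h1
  have n1 := even_elem hd2 hn2 (v := 2 * (e : ZMod M)) (x := 2 * (d : ZMod M)) (c := 1)
    (by linear_combination (2 : ZMod M) * hnu) (by rw [hcast, one_mul])
  have n2 := even_elem hd2 hn2 (v := -(2 * (e : ZMod M))) (x := -(d : ZMod M)) (c := -2)
    (by linear_combination (-2 : ZMod M) * hnu) (by rw [hcast]; ring)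
  have n3 := even_elem hd2 hn2 (v := -(e : ZMod M)) (x := -(d : ZMod M)) (c := -2)
    (by linear_combination (-1 : ZMod M) * hnu) (by rw [hcast]; ring)
  rw [← sub_eq_add_neg] at n2 n3
  have hsurf : SurfaceTate p M {(e : ZMod M), 2 * (e : ZMod M) + 2 * (d : ZMod M),
      -(2 * (e : ZMod M)) - d, -(e : ZMod M) - d} := by
    refine surface_of hp he0 n1.1 n2.1 n3.1 (by ring) (fun t => ?_)
    have h := relA (DF_W hp t) he hd hq8 hp4 hpq hidx (Or.inl rfl) (one_ne_zero (α := ZMod q))
    rw [ph_one] at h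
    exact h
  exact fix_surface hsurf (el_supp hu0 he0 (by rw [hu, heo])) (el_even n1 n2)
    (null_even hd2 n3.1 n3.2)

/-- the rule for minus two, characteristic one modulo eight -/
theorem fix_B (hp : p.Coprime M) (h8 : 8 ∣ M) (hq8 : q % 8 = 3) (hp8 : p % 8 = 1)
    (hidx : (q - 1) ∣ 4 * orderOf (p : ZMod q)) (hu : addOrderOf u = q) : Fix p u := by
  have hq := (Fact.out : q.Prime)
  have hqM : q ∣ M := hu ▸ addOrderOf_dvd_level u
  obtain ⟨e, he'⟩ := hqM
  obtain ⟨d, hd'⟩ := h8
  have he : q * e = M := he'.symm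
  have hd : 8 * d = M := hd'.symm
  have hd2 : 2 * (4 * d) = M := by omega
  have hcast : ((4 * d : ℕ) : ZMod M) = 4 * (d : ZMod M) := by push_cast; rfl
  have hn2 : ¬ 2 ∣ q := by omega
  have hpq : (p : ZMod q) ≠ 0 := by
    intro h
    rw [ZMod.natCast_eq_zero_iff] at h
    have h1 := Nat.Coprime.coprime_dvd_right (Dvd.intro e he) hp
    exact hq.one_lt.ne' (Nat.eq_one_of_dvd_one (h1.gcd_eq_one ▸ Nat.dvd_gcd h dvd_rfl))
  have heo := order_e he
  have hnu := order_mul_zero heo
  have he0 : (e : ZMod M) ≠ 0 := ne_zero_of_order heo hq.one_lt.ne'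
  have hu0 : u ≠ 0 := ne_zero_of_order hu hq.one_lt.ne'
  have h8z : 8 * (d : ZMod M) = 0 := by
    have h1 : ((8 * d : ℕ) : ZMod M) = 0 := by rw [hd]; simp
    push_cast at h1
    exact h1
  have n1 := even_elem hd2 hn2 (v := (e : ZMod M)) (x := (d : ZMod M)) (c := 4) hnu
    (by rw [hcast])
  have n2 := even_elem hd2 hn2 (v := (e : ZMod M)) (x := 3 * (d : ZMod M)) (c := 4) hnu
    (by rw [hcast]; linear_combination h8z)
  have n3 := even_elem hd2 hn2 (v := -(e : ZMod M)) (x := 4 * (d : ZMod M)) (c := 1)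
    (by linear_combination (-1 : ZMod M) * hnu) (by rw [hcast, one_mul])
  have hsurf : SurfaceTate p M {-(e : ZMod M), (e : ZMod M) + d, (e : ZMod M) + 3 * d,
      -(e : ZMod M) + 4 * d} := by
    refine surface_of hp (neg_ne_zero.mpr he0) n1.1 n2.1 n3.1 (by linear_combination h8z)
      (fun t => ?_)
    have h := relB (DF_W hp t) he hd hq8 hp8 hpq hidx (one_ne_zero (α := ZMod q))
    rw [ph_one] at h
    exact h
  exact fix_surface hsurf (el_supp hu0 (neg_ne_zero.mpr he0) (by rw [addOrderOf_neg, hu, heo]))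
    (el_even n1 n2) (null_even hd2 n3.1 n3.2)

lemma order_add_three {v : ZMod M} (hv : addOrderOf v = q) (hq3 : q ≠ 3) {g : ℕ}
    (hg : 3 * g = M) : addOrderOf (v + (g : ZMod M)) = q * 3 := by
  have hq := (Fact.out : q.Prime)
  have hgo : addOrderOf (g : ZMod M) = 3 := by
    have h1 := order_elem (M := M) (Dvd.intro g hg)
    have h2 : M / 3 = g := by rw [← hg]; exact Nat.mul_div_cancel_left g (by norm_num)
    rwa [h2] at h1
  rw [(AddCommute.all v (g : ZMod M)).addOrderOf_add_eq_mul_addOrderOf_of_coprime (by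
      rw [hv, hgo]; exact (Nat.coprime_primes hq Nat.prime_three).mpr hq3), hv, hgo]

/-- values at sums with an element of order three -/
lemma tw {V : ZMod M → ℤ} (hV : DF p V) {g : ℕ} (hg : 3 * g = M) {x : ZMod M} {s : ℕ}
    (hx : (p : ZMod M) ^ s * x = x) (hsg : (p : ZMod M) ^ s * (g : ZMod M) = -g) :
    2 * V (x + g) = V (3 * x) - V x ∧ 2 * V (x - g) = V (3 * x) - V x := by
  have h1 := hV.three hg x
  have h2 : V (x - g) = V (x + g) := hV.eq_of s (by rw [mul_add, hx, hsg]; ring)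
  constructor <;> omega

/-- adding the prime three, characteristic five modulo twelve -/
theorem fix_C (hp : p.Coprime M) (h12 : 12 ∣ M) (hq8 : q % 8 = 5) (hp12 : p % 12 = 5)
    (hidx : (q - 1) ∣ 4 * orderOf (p : ZMod q)) (ho : Odd (orderOf (p : ZMod q)))
    (hu : addOrderOf u = 3 * q) : Fix p u := by
  have hq := (Fact.out : q.Prime)
  have hqM : q ∣ M := (Dvd.intro_left _ rfl).trans (hu ▸ addOrderOf_dvd_level u)
  obtain ⟨e, he'⟩ := hqM
  obtain ⟨d, hd'⟩ : 4 ∣ M := Dvd.dvd.trans (by norm_num) h12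
  obtain ⟨g, hg'⟩ : 3 ∣ M := Dvd.dvd.trans (by norm_num) h12
  have he : q * e = M := he'.symm
  have hd : 4 * d = M := hd'.symm
  have hg : 3 * g = M := hg'.symm
  have hd2 : 2 * (2 * d) = M := by omega
  have hcast : ((2 * d : ℕ) : ZMod M) = 2 * (d : ZMod M) := by push_cast; rfl
  have hn2 : ¬ 2 ∣ q * 3 := by omega
  have hq3 : q ≠ 3 := by omega
  have hpq : (p : ZMod q) ≠ 0 := by
    intro h
    rw [ZMod.natCast_eq_zero_iff] at h
    have h1 := Nat.Coprime.coprime_dvd_right (Dvd.intro e he) hp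
    exact hq.one_lt.ne' (Nat.eq_one_of_dvd_one (h1.gcd_eq_one ▸ Nat.dvd_gcd h dvd_rfl))
  have heo := order_e he
  have hnu := order_mul_zero heo
  have hxo := order_add_three heo hq3 hg
  have hx0 : (e : ZMod M) + g ≠ 0 := ne_zero_of_order hxo (by have := hq.one_lt; omega)
  have hu0 : u ≠ 0 := ne_zero_of_order hu (by have := hq.one_lt; omega)
  have h4z : 4 * (d : ZMod M) = 0 := by
    have h1 : ((4 * d : ℕ) : ZMod M) = 0 := by rw [hd]; simp
    push_cast at h1
    exact h1
  have h3g : 3 * (g : ZMod M) = 0 := by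
    have h1 : ((3 * g : ℕ) : ZMod M) = 0 := by rw [hg]; simp
    push_cast at h1
    exact h1
  obtain ⟨s, hs, hsn⟩ := exists_sq ho (pow_orderOf_eq_one (p : ZMod q))
  have hse : (p : ZMod M) ^ s * (e : ZMod M) = e := by
    have h := elem_mul (c := 1) hnu (by push_cast; exact hsn)
    push_cast at h
    rw [h, one_mul]
  have hsz : (p : ZMod M) ^ s * (d : ZMod M) = d := by
    have h := aux_mul (c := 1) hd (j := s) (p := p) (by
      rw [pow_self_of (four4 (by omega)) hs, cast_of_mod (c := 1) (by omega)]; decide)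
    push_cast at h
    rw [h, one_mul]
  have hsg : (p : ZMod M) ^ s * (g : ZMod M) = -(g : ZMod M) := by
    have h := aux_mul (c := -1) hg (j := s) (p := p) (by
      rw [pow_self_of (four3 (by omega)) hs, cast_of_mod (c := 2) (by omega)]; decide)
    push_cast at h
    rw [h]; ring
  have n1 := even_elem hd2 hn2 (v := 2 * (e : ZMod M) + g) (x := 2 * (d : ZMod M)) (c := 1)
    (by push_cast; linear_combination (6 : ZMod M) * hnu + (q : ZMod M) * h3g)
    (by rw [hcast, one_mul])
  have n2 := even_elem hd2 hn2 (v := -(2 * (e : ZMod M)) - g) (x := -(d : ZMod M)) (c := -2)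
    (by push_cast; linear_combination (-6 : ZMod M) * hnu - (q : ZMod M) * h3g)
    (by rw [hcast]; ring)
  have n3 := even_elem hd2 hn2 (v := -(e : ZMod M) - g) (x := -(d : ZMod M)) (c := -2)
    (by push_cast; linear_combination (-3 : ZMod M) * hnu - (q : ZMod M) * h3g)
    (by rw [hcast]; ring)
  have r1 : 2 * (e : ZMod M) + g + 2 * d = 2 * (e : ZMod M) + 2 * d + g := by ring
  have r2 : -(2 * (e : ZMod M)) - g + -(d : ZMod M) = -(2 * (e : ZMod M)) - d - g := by ring
  have r3 : -(e : ZMod M) - g + -(d : ZMod M) = -(e : ZMod M) - d - g := by ring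
  rw [r1] at n1
  rw [r2] at n2
  rw [r3] at n3
  have h30 : (3 : ZMod q) ≠ 0 := by
    intro h
    have h3 : ((3 : ℕ) : ZMod q) = 0 := by push_cast; exact h
    rw [ZMod.natCast_eq_zero_iff] at h3
    exact hq3 ((Nat.prime_dvd_prime_iff_eq hq Nat.prime_three).mp h3)
  have hsurf : SurfaceTate p M {(e : ZMod M) + g, 2 * (e : ZMod M) + 2 * (d : ZMod M) + g,
      -(2 * (e : ZMod M)) - d - g, -(e : ZMod M) - d - g} := by
    refine surface_of hp hx0 n1.1 n2.1 n3.1 (by ring) (fun t => ?_)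
    have hV := DF_W hp t
    have h := relA hV he hd hq8 (by omega) hpq hidx (Or.inl rfl) (one_ne_zero (α := ZMod q))
    rw [ph_one] at h
    have h' := relA hV he hd hq8 (by omega) hpq hidx (Or.inr rfl) h30
    have e3 : ph (e : ZMod M) (q_mul_e he) (3 : ZMod q) = 3 * e := by
      have := ph_nat (q_mul_e he) 3
      push_cast at this
      exact this
    rw [e3] at h'
    have t1 := (tw hV hg (x := (e : ZMod M)) hse hsg).1
    have t2 := (tw hV hg (x := 2 * (e : ZMod M) + 2 * (d : ZMod M)) (s := s) (by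
      linear_combination (2 : ZMod M) * hse + (2 : ZMod M) * hsz) hsg).1
    have t3 := (tw hV hg (x := -(2 * (e : ZMod M)) - (d : ZMod M)) (s := s) (by
      linear_combination (-2 : ZMod M) * hse - hsz) hsg).2
    have t4 := (tw hV hg (x := -(e : ZMod M) - (d : ZMod M)) (s := s) (by
      linear_combination -hse - hsz) hsg).2
    have a2 : 3 * (2 * (e : ZMod M) + 2 * (d : ZMod M)) = 2 * (3 * (e : ZMod M)) + 2 * -(d : ZMod M) := by
      linear_combination (2 : ZMod M) * h4z
    have a3 : 3 * (-(2 * (e : ZMod M)) - (d : ZMod M)) = -(2 * (3 * (e : ZMod M))) - -(d : ZMod M) := by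
      linear_combination -h4z
    have a4 : 3 * (-(e : ZMod M) - (d : ZMod M)) = -(3 * (e : ZMod M)) - -(d : ZMod M) := by
      linear_combination -h4z
    rw [a2] at t2
    rw [a3] at t3
    rw [a4] at t4
    linarith
  exact fix_surface hsurf (el_supp hu0 hx0 (by rw [hu, hxo, mul_comm])) (el_even n1 n2)
    (null_even hd2 n3.1 n3.2)

end Pool.Agent.J4.H6.SI
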