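import Pool.Agent.J4.H6.SI.Fixes

/-!
# Supports which can be corrected by surfaces: supports divisible by three
-/

set_option linter.unusedSectionVars false

namespace Pool.Agent.J4.H6.SI

open Finset Pool.Agent.H916R2 Pool.Agent.H916T Pool.Agent.H916U Pool.Agent.H916Z Pool.Agent.H916Q
  Pool.Agent.TH540

variable {p M q : ℕ} [NeZero M] [Fact q.Prime] {u : ZMod M}

lemma p_ne (hp : p.Coprime M) (hqM : q ∣ M) : (p : ZMod q) ≠ 0 := by
  have hq := (Fact.out : q.Prime)
  intro h
  rw [ZMod.natCast_eq_zero_iff] at h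
  have h1 := Nat.Coprime.coprime_dvd_right hqM hp
  exact hq.one_lt.ne' (Nat.eq_one_of_dvd_one (h1.gcd_eq_one ▸ Nat.dvd_gcd h dvd_rfl))

/-- adding the prime three, characteristic eleven modulo twelve -/
theorem fix_C' (hp : p.Coprime M) (h12 : 12 ∣ M) (hq8 : q % 8 = 5) (hp12 : p % 12 = 11)
    (hidx : (q - 1) ∣ 4 * orderOf (p : ZMod q)) (ho : Odd (orderOf (p : ZMod q)))
    (hu : addOrderOf u = 3 * q) : Fix p u := by
  have hq := (Fact.out : q.Prime)
  have hqM : q ∣ M := (Dvd.intro_left _ rfl).trans (hu ▸ addOrderOf_dvd_level u)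
  have hpq : (p : ZMod q) ≠ 0 := p_ne hp hqM
  obtain ⟨e, he'⟩ := hqM
  have h4M : 4 ∣ M := Dvd.dvd.trans (by norm_num) h12
  obtain ⟨d, hd'⟩ := id h4M
  obtain ⟨g, hg'⟩ : 3 ∣ M := Dvd.dvd.trans (by norm_num) h12
  have he : q * e = M := he'.symm
  have hd : 4 * d = M := hd'.symm
  have hg : 3 * g = M := hg'.symm
  have hd2 : 2 * (2 * d) = M := by omega
  have hcast : ((2 * d : ℕ) : ZMod M) = 2 * (d : ZMod M) := by push_cast; rfl
  have hn2 : ¬ 2 ∣ q := by omega
  have hq3 : q ≠ 3 := by omega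
  have hq1 : q ≠ 1 := hq.one_lt.ne'
  obtain ⟨r, hr⟩ := neg_four (q := q) hq8
  have h2 := two_nonsquare (q := q) (Or.inr hq8)
  have h40 : (-4 : ZMod q) ≠ 0 := by
    intro h
    have h3 : (2 : ZMod q) * 2 = 0 := by linear_combination -h
    rcases mul_eq_zero.mp h3 with h4 | h4 <;> exact h2.1 h4
  have h30 : (3 : ZMod q) ≠ 0 := by
    intro h
    have h3 : ((3 : ℕ) : ZMod q) = 0 := by push_cast; exact h
    rw [ZMod.natCast_eq_zero_iff] at h3
    exact hq3 ((Nat.prime_dvd_prime_iff_eq hq Nat.prime_three).mp h3)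
  obtain ⟨k, hk⟩ := pow_of_four hpq hidx h40 hr
  have hfix4 : ∀ v : ZMod M, addOrderOf v = q → Fix p v := fun v hv =>
    fix_four hp (by omega) h4M hv hq1 hn2 ho (pow_orderOf_eq_one _) hk
  obtain ⟨l, hl | hl | hl | hl⟩ := four_classes hpq hidx h2.1 h2.2 hk h30
  · -- `3` is a power of `p`
    have h3p : orderOf (((p : ℕ) : ZMod 3) ^ orderOf (p : ZMod q)) = 3 - 1 := by
      obtain ⟨c, hc⟩ := ho
      have e1 : ((p : ℕ) : ZMod 3) = 2 := by
        have := cast_of_mod (p := p) (D := 3) (c := 2) (by omega)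
        push_cast at this
        exact this
      have e2 : (2 : ZMod 3) ^ 2 = 1 := by decide
      rw [hc, e1, pow_add, pow_mul, e2, one_pow, one_mul, pow_one]
      apply orderOf_eq_prime e2
      decide
    refine fix_null (null_pure hp Nat.prime_three ?_ hu
      (pow_orderOf_eq_one _) h3p (j := l) (by push_cast; exact hl))
    exact (Nat.coprime_primes hq Nat.prime_three).mpr hq3
  · -- `-3` is a power of `p`
    have h3q : ¬ 3 ∣ q := fun h => hq3 ((Nat.prime_dvd_prime_iff_eq Nat.prime_three hq).mp h).symm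
    exact fix_three hp (by omega) h3q hq1 hu ho (pow_orderOf_eq_one _) hl hfix4
  all_goals
    have heo := order_e he
    have hnu := order_mul_zero heo
    have hxo := order_add_three heo hq3 hg
    have hx0 : (e : ZMod M) + g ≠ 0 := ne_zero_of_order hxo (by have := hq.one_lt; omega)
    have hu0 : u ≠ 0 := ne_zero_of_order hu (by have := hq.one_lt; omega)
    have h4z : 4 * (d : ZMod M) = 0 := by
      have h1 : ((4 * d : ℕ) : ZMod M) = 0 := by rw [hd]; simp
      push_cast at h1
      exact h1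
    obtain ⟨s, hs, hsn⟩ := exists_sq ho (pow_orderOf_eq_one (p : ZMod q))
    have hse : (p : ZMod M) ^ s * (e : ZMod M) = e := by
      have h := elem_mul (c := 1) hnu (by push_cast; exact hsn)
      push_cast at h
      rw [h, one_mul]
    have hsz : (p : ZMod M) ^ s * (d : ZMod M) = -(d : ZMod M) := by
      have h := aux_mul (c := -1) hd (j := s) (p := p) (by
        rw [pow_self_of (four4 (by omega)) hs, cast_of_mod (c := 3) (by omega)]; decide)
      push_cast at h
      rw [h]; ring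
    have hsg : (p : ZMod M) ^ s * (g : ZMod M) = -(g : ZMod M) := by
      have h := aux_mul (c := -1) hg (j := s) (p := p) (by
        rw [pow_self_of (four3 (by omega)) hs, cast_of_mod (c := 2) (by omega)]; decide)
      push_cast at h
      rw [h]; ring
    have hke : (p : ZMod M) ^ k * (e : ZMod M) = -(4 * (e : ZMod M)) := by
      have h := elem_mul (c := -4) hnu (by push_cast; exact hk)
      push_cast at h
      rw [h]; ring
    have hK : ∀ V : ZMod M → ℤ, DF p V → ∀ x : ZMod M, (p : ZMod M) ^ s * x = x →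
        (p : ZMod M) ^ k * x = -(4 * x) → 2 * V (x + d) = -V x - V (2 * x) := by
      intro V hV x hx hkx
      have e1 : V (x - d) = V (x + d) := hV.eq_of s (by rw [mul_add, hx, hsz]; ring)
      have e2 := hV.two hd2 (x - d)
      rw [hcast] at e2
      have e3 : x - (d : ZMod M) + 2 * d = x + d := by ring
      have e4 : 2 * (x - (d : ZMod M)) = 2 * x + 2 * d := by linear_combination -h4z
      rw [e3, e4] at e2
      have e5 := hV.two hd2 (2 * x)
      rw [hcast] at e5
      have e6 : V (2 * (2 * x)) = -V x := hV.eq_neg_of k (by linear_combination hkx)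
      omega
  · -- `3 = 2 p ^ l`
    have hle : 2 * ((p : ZMod M) ^ l * (e : ZMod M)) = 3 * e := by
      have h := mul_eq_of_mod (a := ((2 * p ^ l : ℕ) : ℤ)) (b := 3) hnu (by push_cast; exact hl)
      push_cast at h
      linear_combination h
    have n1 := even_elem hd2 hn2 (v := -(2 * (e : ZMod M))) (x := (d : ZMod M)) (c := 2)
      (by linear_combination (-2 : ZMod M) * hnu) (by rw [hcast])
    have hlink : Link p ((e : ZMod M) + (g : ZMod M)) (-(2 * (e : ZMod M)) + (d : ZMod M)) := by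
      refine ⟨hx0, n1.1, Or.inr (Or.inr fun t => ?_)⟩
      have hV := DF_W hp t
      have t1 := (tw hV hg (x := (e : ZMod M)) hse hsg).1
      have t2 := hK _ hV (-(2 * (e : ZMod M))) (by linear_combination (-2 : ZMod M) * hse)
        (by linear_combination (-2 : ZMod M) * hke)
      have t3 := hV.eq_of l (b := 3 * (e : ZMod M)) (a := 2 * (e : ZMod M)) (by
        linear_combination hle)
      have t4 := hV.eq_neg_of k (a := (e : ZMod M)) (b := 4 * (e : ZMod M)) hke
      have t5 := hV.ng (2 * (e : ZMod M))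
      have t6 := hV.ng (4 * (e : ZMod M))
      have e7 : 2 * -(2 * (e : ZMod M)) = -(4 * (e : ZMod M)) := by ring
      rw [e7] at t2
      linarith
    refine fix_null (Null.of_el ?_ (null_even hd2 n1.1 n1.2))
    exact (el_supp hu0 hx0 (by rw [hu, hxo, mul_comm])).trans _ _ _ (Relation.EqvGen.rel _ _ hlink)
  · -- `-3 = 2 p ^ l`
    have hle : 2 * ((p : ZMod M) ^ l * (e : ZMod M)) = -(3 * e) := by
      have h := mul_eq_of_mod (a := ((2 * p ^ l : ℕ) : ℤ)) (b := -3) hnu (by push_cast; exact hl)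
      push_cast at h
      linear_combination h
    have n1 := even_elem hd2 hn2 (v := (e : ZMod M)) (x := (d : ZMod M)) (c := 2) hnu
      (by rw [hcast])
    have hlink : Link p ((e : ZMod M) + (g : ZMod M)) ((e : ZMod M) + (d : ZMod M)) := by
      refine ⟨hx0, n1.1, Or.inr (Or.inr fun t => ?_)⟩
      have hV := DF_W hp t
      have t1 := (tw hV hg (x := (e : ZMod M)) hse hsg).1
      have t2 := hK _ hV (e : ZMod M) hse hke
      have t3 := hV.eq_neg_of l (b := 3 * (e : ZMod M)) (a := 2 * (e : ZMod M)) (by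
        linear_combination hle)
      linarith
    refine fix_null (Null.of_el ?_ (null_even hd2 n1.1 n1.2))
    exact (el_supp hu0 hx0 (by rw [hu, hxo, mul_comm])).trans _ _ _ (Relation.EqvGen.rel _ _ hlink)

/-- the prime `q` congruent to one modulo three and `p` a primitive root modulo `q` -/
theorem null_prim (hp : p.Coprime M) (hp3 : p % 3 = 1) (hq3 : q % 3 = 1)
    (ho : orderOf (p : ZMod q) = q - 1) (hu : addOrderOf u = 3 * q) : Null p u := by
  have hq := (Fact.out : q.Prime)
  have h1 : ((p : ℕ) : ZMod 3) = 1 := by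
    have := cast_of_mod (p := p) (D := 3) (c := 1) hp3
    push_cast at this
    exact this
  refine null_pure (n := 3) (f := 1) (j := 0) hp hq ?_ (by rw [hu, mul_comm]) (by rw [h1]; simp)
    (by rw [pow_one]; exact ho) ?_
  · exact (Nat.coprime_primes Nat.prime_three hq).mpr (by omega)
  · rw [pow_zero, cast_of_mod (p := q) (D := 3) (c := 1) hq3]; simp

section D

lemma not_sq23 : ¬ IsSquare ((2 : ℕ) : ZMod 3) := by decide

variable {V : ZMod M → ℤ}

/-- powers of `p` reach everything if `p` is a primitive root -/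
lemma prim_nonsquare (hq2 : q ≠ 2) (ho : orderOf (p : ZMod q) = q - 1) :
    ¬ IsSquare (p : ZMod q) := by
  have hq := (Fact.out : q.Prime)
  rintro ⟨c, hc⟩
  have h2 : 2 < q := lt_of_le_of_ne hq.two_le (Ne.symm hq2)
  have hp0 : (p : ZMod q) ≠ 0 := by
    intro h
    rw [h] at ho
    have h3 : orderOf (0 : ZMod q) = 0 := by
      rw [orderOf_eq_zero_iff']
      intro n hn h4
      rw [zero_pow hn.ne'] at h4
      exact zero_ne_one h4
    omega
  have hc0 : c ≠ 0 := by
    rintro rfl
    apply hp0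
    rw [hc, mul_zero]
  have h3 : (p : ZMod q) ^ ((q - 1) / 2) = 1 := by
    have hodd : q % 2 = 1 := hq.eq_two_or_odd.resolve_left hq2
    rw [hc, ← sq, ← pow_mul, show 2 * ((q - 1) / 2) = q - 1 by omega]
    exact ZMod.pow_card_sub_one_eq_one hc0
  have h4 := orderOf_dvd_of_pow_eq_one h3
  have h5 := Nat.le_of_dvd (by omega) h4
  omega

lemma relD1 (hV : DF p V) {e d g : ℕ} (he : q * e = M) (hd : 4 * d = M) (hg : 3 * g = M)
    (hq8 : q % 8 = 5) (hq3 : q % 3 = 2) (hp4 : p % 4 = 1) (hp3 : p % 3 = 1)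
    (ho : orderOf (p : ZMod q) = q - 1) {y : ZMod q} (hy : y ≠ 0) :
    V ((d : ZMod M) + g + ph (e : ZMod M) (q_mul_e he) y) =
      V ((g : ZMod M) + ph (e : ZMod M) (q_mul_e he) y) := by
  have hq := (Fact.out : q.Prime)
  set φ := ph (e : ZMod M) (q_mul_e he) with hφ
  have h4z : 4 * (d : ZMod M) = 0 := by
    have h1 : ((4 * d : ℕ) : ZMod M) = 0 := by rw [hd]; simp
    push_cast at h1
    exact h1
  have h3g : 3 * (g : ZMod M) = 0 := by
    have h1 : ((3 * g : ℕ) : ZMod M) = 0 := by rw [hg]; simp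
    push_cast at h1
    exact h1
  have hd2 : 2 * (2 * d) = M := by omega
  have hcast : ((2 * d : ℕ) : ZMod M) = 2 * (d : ZMod M) := by push_cast; rfl
  have hpz : (p : ZMod M) * (d : ZMod M) = d := by
    obtain ⟨c, hc⟩ : ∃ c, p = 4 * c + 1 := ⟨p / 4, by omega⟩
    rw [hc]
    push_cast
    linear_combination (c : ZMod M) * h4z
  have hpg : (p : ZMod M) * (g : ZMod M) = g := by
    obtain ⟨c, hc⟩ : ∃ c, p = 3 * c + 1 := ⟨p / 3, by omega⟩
    rw [hc]
    push_cast
    linear_combination (c : ZMod M) * h3g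
  have hqz : (q : ZMod M) * (d : ZMod M) = d := by
    obtain ⟨c, hc⟩ : ∃ c, q = 4 * c + 1 := ⟨q / 4, by omega⟩
    rw [hc]
    push_cast
    linear_combination (c : ZMod M) * h4z
  have hqg : (q : ZMod M) * (g : ZMod M) = -g := by
    obtain ⟨c, hc⟩ : ∃ c, q = 3 * c + 2 := ⟨q / 3, by omega⟩
    rw [hc]
    push_cast
    linear_combination ((c : ZMod M) + 1) * h3g
  have hq2 : q ≠ 2 := by omega
  have hns := prim_nonsquare hq2 ho
  have hpq : (p : ZMod q) ≠ 0 := by
    intro h
    exact hns (by rw [h]; exact ⟨0, by ring⟩)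
  have hidx : (q - 1) ∣ 4 * orderOf (p : ZMod q) := by rw [ho]; exact Dvd.intro_left _ rfl
  have Kp : ∀ a : ZMod M, (p : ZMod M) * a = a → ∀ x : ZMod q,
      V (a + φ ((p : ZMod q) * x)) = V (a + φ x) := by
    intro a ha x
    have h := V_pow hV (q_mul_e he) (z := a) 1 (by rw [pow_one, ha]) x
    rwa [pow_one] at h
  set T : ZMod q → ℤ := fun x => V ((d : ZMod M) + g + φ x) - V ((g : ZMod M) + φ x) with hT
  have hinv : ∀ x, T ((p : ZMod q) * x) = T x := by
    intro x
    simp only [hT]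
    rw [Kp _ (by rw [mul_add, hpz, hpg]), Kp _ hpg]
  have h0 : T y = 0 := by
    refine zero_of_inv hpq hidx hpq hns T hinv hinv ?_ hy
    simp only [hT]
    rw [sum_sub_distrib, dist_units hV he (q_mul_e he), dist_units hV he (q_mul_e he)]
    have e1 : (q : ZMod M) * ((d : ZMod M) + g) = -(g - d) := by rw [mul_add, hqz, hqg]; ring
    rw [e1, hqg, hV.ng, hV.ng]
    have e2 := hV.two hd2 ((g : ZMod M) + d)
    rw [hcast] at e2
    have e3 : (g : ZMod M) + d + 2 * d = g - d := by linear_combination h4z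
    have e4 : 2 * ((g : ZMod M) + d) = -g + 2 * d := by linear_combination h3g
    rw [e3, e4] at e2
    have e5 := hV.two hd2 (-(g : ZMod M))
    rw [hcast] at e5
    have e6 : 2 * -(g : ZMod M) = g := by linear_combination -h3g
    rw [e6, hV.ng] at e5
    have e7 : V ((d : ZMod M) + g) = V ((g : ZMod M) + d) := by rw [add_comm]
    rw [e7]
    linarith
  simp only [hT] at h0
  linarith

lemma relD3 (hV : DF p V) {e d g : ℕ} (he : q * e = M) (hd : 4 * d = M) (hg : 3 * g = M)
    (hq8 : q % 8 = 5) (hq3 : q % 3 = 2) (hp4 : p % 4 = 3) (hp3 : p % 3 = 1)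
    (ho : orderOf (p : ZMod q) = q - 1) {y : ZMod q} (hy : y ≠ 0) :
    V ((d : ZMod M) + g + ph (e : ZMod M) (q_mul_e he) y) =
      V ((g : ZMod M) + ph (e : ZMod M) (q_mul_e he) y) := by
  have hq := (Fact.out : q.Prime)
  set φ := ph (e : ZMod M) (q_mul_e he) with hφ
  have h4z : 4 * (d : ZMod M) = 0 := by
    have h1 : ((4 * d : ℕ) : ZMod M) = 0 := by rw [hd]; simp
    push_cast at h1
    exact h1
  have h3g : 3 * (g : ZMod M) = 0 := by
    have h1 : ((3 * g : ℕ) : ZMod M) = 0 := by rw [hg]; simp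
    push_cast at h1
    exact h1
  have hd2 : 2 * (2 * d) = M := by omega
  have hcast : ((2 * d : ℕ) : ZMod M) = 2 * (d : ZMod M) := by push_cast; rfl
  have hpz : (p : ZMod M) * (d : ZMod M) = -d := by
    obtain ⟨c, hc⟩ : ∃ c, p = 4 * c + 3 := ⟨p / 4, by omega⟩
    rw [hc]
    push_cast
    linear_combination ((c : ZMod M) + 1) * h4z
  have hpg : (p : ZMod M) * (g : ZMod M) = g := by
    obtain ⟨c, hc⟩ : ∃ c, p = 3 * c + 1 := ⟨p / 3, by omega⟩
    rw [hc]
    push_cast
    linear_combination (c : ZMod M) * h3g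
  have hq2 : q ≠ 2 := by omega
  have hns := prim_nonsquare hq2 ho
  have hpq : (p : ZMod q) ≠ 0 := by
    intro h
    exact hns (by rw [h]; exact ⟨0, by ring⟩)
  have hidx : (q - 1) ∣ 4 * orderOf (p : ZMod q) := by rw [ho]; exact Dvd.intro_left _ rfl
  have hpφ : ∀ x : ZMod q, φ ((p : ZMod q) * x) = (p : ZMod M) * φ x := fun x => ph_mul _ p x
  -- constancy at `g + φ x`
  have hG : ∀ x x' : ZMod q, x ≠ 0 → x' ≠ 0 → V ((g : ZMod M) + φ x) = V ((g : ZMod M) + φ x') := by
    intro x x' hx hx'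
    have hinv : ∀ x : ZMod q, V ((g : ZMod M) + φ ((p : ZMod q) * x)) = V ((g : ZMod M) + φ x) := by
      intro x
      rw [hpφ]
      exact hV.eq_of 1 (by rw [pow_one, mul_add, hpg])
    exact const_of_inv hpq hidx hpq hns (fun x => V ((g : ZMod M) + φ x)) hinv hinv hx hx'
  set G0 := V ((g : ZMod M) + φ y) with hG0
  -- the functions
  have hKp : ∀ x : ZMod q, V ((d : ZMod M) + φ ((p : ZMod q) * x)) = -V ((d : ZMod M) + φ (-x)) := by
    intro x
    rw [hpφ, map_neg, ← hV.ng]
    exact hV.eq_of 1 (by rw [pow_one]; linear_combination -hpz)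
  have hK2 : ∀ x : ZMod q, V ((d : ZMod M) + φ ((p : ZMod q) * ((p : ZMod q) * x))) =
      V ((d : ZMod M) + φ x) := by
    intro x
    rw [hKp, ← mul_neg, hKp, neg_neg, neg_neg]
  have hKk : ∀ (j : ℕ) (x : ZMod q), V ((d : ZMod M) + φ ((p : ZMod q) ^ (2 * j) * x)) =
      V ((d : ZMod M) + φ x) := by
    intro j
    induction j with
    | zero => intro x; simp
    | succ j ih =>
      intro x
      have e1 : (p : ZMod q) ^ (2 * (j + 1)) * x = (p : ZMod q) * ((p : ZMod q) *
          ((p : ZMod q) ^ (2 * j) * x)) := by ring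
      rw [e1, hK2, ih]
  -- `-1` and `3` as powers of `p`
  have hm1 : ∃ j : ℕ, (p : ZMod q) ^ (2 * j) = -1 := by
    obtain ⟨c, hc⟩ : ∃ c, q - 1 = 4 * c := ⟨(q - 1) / 4, by omega⟩
    refine ⟨c, ?_⟩
    have h1 : ((p : ZMod q) ^ (2 * c)) ^ 2 = 1 := by
      rw [← pow_mul, show 2 * c * 2 = q - 1 by omega, ← ho]
      exact pow_orderOf_eq_one _
    rw [sq] at h1
    rcases mul_self_eq_one_iff.mp h1 with h2 | h2
    · exfalso
      have h3 := orderOf_dvd_of_pow_eq_one h2
      rw [ho] at h3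
      have h4 := Nat.le_of_dvd (by omega) h3
      omega
    · exact h2
  obtain ⟨jm, hjm⟩ := hm1
  have hKneg : ∀ x : ZMod q, V ((d : ZMod M) + φ (-x)) = V ((d : ZMod M) + φ x) := by
    intro x
    have h := hKk jm x
    rwa [hjm, neg_one_mul] at h
  have h30 : (3 : ZMod q) ≠ 0 := by
    intro h
    have h3 : ((3 : ℕ) : ZMod q) = 0 := by push_cast; exact h
    rw [ZMod.natCast_eq_zero_iff] at h3
    have := (Nat.prime_dvd_prime_iff_eq hq Nat.prime_three).mp h3
    omega
  obtain ⟨j3, hj3⟩ := gen_units hq ho h30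
  have hj3odd : j3 % 2 = 1 := by
    by_contra h
    have h1 : IsSquare (3 : ZMod q) := by
      refine ⟨(p : ZMod q) ^ (j3 / 2), ?_⟩
      rw [← pow_add, ← hj3]
      congr 1
      omega
    have hF3 : Fact (Nat.Prime 3) := ⟨Nat.prime_three⟩
    have h2 : IsSquare ((q : ℕ) : ZMod 3) :=
      (ZMod.exists_sq_eq_prime_iff_of_mod_four_eq_one (p := q) (q := 3) (by omega)
        (by norm_num)).mp (by exact_mod_cast h1)
    rw [cast_of_mod (p := q) (D := 3) (c := 2) hq3] at h2
    exact not_sq23 h2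
  have hK3 : ∀ x : ZMod q, V ((d : ZMod M) + φ (3 * x)) = -V ((d : ZMod M) + φ x) := by
    intro x
    have e1 : (3 : ZMod q) * x = (p : ZMod q) ^ (2 * (j3 / 2)) * ((p : ZMod q) * x) := by
      rw [← hj3]
      conv_lhs => rw [show j3 = 2 * (j3 / 2) + 1 by omega]
      rw [pow_succ]; ring
    rw [e1, hKk, hKp, hKneg]
  -- the functions `T`
  have hTp : ∀ x : ZMod q, V (-(d : ZMod M) + g + φ ((p : ZMod q) * x)) =
      V ((d : ZMod M) + g + φ x) := by
    intro x
    rw [hpφ]
    exact hV.eq_of 1 (by rw [pow_one]; linear_combination hpz + hpg)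
  have hsum : ∀ x : ZMod q, x ≠ 0 → V ((d : ZMod M) + g + φ x) + V (-(d : ZMod M) + g + φ x) =
      2 * G0 := by
    intro x hx
    have e1 := hV.two hd2 (-(d : ZMod M) + g + φ x)
    rw [hcast] at e1
    have e2 : -(d : ZMod M) + g + φ x + 2 * d = d + g + φ x := by ring
    have e3 : 2 * (-(d : ZMod M) + g + φ x) = -g + 2 * φ x + 2 * d := by
      linear_combination -h4z + h3g
    rw [e2, e3] at e1
    have e4 := hV.two hd2 (-(g : ZMod M) + 2 * φ x)
    rw [hcast] at e4
    have e5 : 2 * (-(g : ZMod M) + 2 * φ x) = g + 4 * φ x := by linear_combination -h3g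
    rw [e5] at e4
    have e6 : V (-(g : ZMod M) + 2 * φ x) = -V ((g : ZMod M) + φ (-(2 * x))) := by
      rw [← hV.ng, map_neg, ph_two]; congr 1; ring
    have e7 : V ((g : ZMod M) + 4 * φ x) = V ((g : ZMod M) + φ (4 * x)) := by rw [ph_four]
    have h20 := (two_nonsquare (q := q) (Or.inr hq8)).1
    have h40 : (4 : ZMod q) ≠ 0 := by
      intro h
      have h3 : (2 : ZMod q) * 2 = 0 := by linear_combination h
      rcases mul_eq_zero.mp h3 with h4 | h4 <;> exact h20 h4
    rw [hG _ y (neg_ne_zero.mpr (mul_ne_zero h20 hx)) hy] at e6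
    rw [hG _ y (mul_ne_zero h40 hx) hy] at e7
    linarith
  have hT1 : ∀ x : ZMod q, x ≠ 0 → V ((d : ZMod M) + g + φ ((p : ZMod q) * x)) - G0 =
      -(V ((d : ZMod M) + g + φ x) - G0) := by
    intro x hx
    have h1 := hsum _ (mul_ne_zero hpq hx)
    rw [hTp] at h1
    linarith
  have hTk : ∀ (j : ℕ) (x : ZMod q), x ≠ 0 →
      V ((d : ZMod M) + g + φ ((p : ZMod q) ^ (2 * j) * x)) = V ((d : ZMod M) + g + φ x) := by
    intro j
    induction j with
    | zero => intro x _; simp
    | succ j ih =>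
      intro x hx
      have e1 : (p : ZMod q) ^ (2 * (j + 1)) * x = (p : ZMod q) * ((p : ZMod q) *
          ((p : ZMod q) ^ (2 * j) * x)) := by ring
      have hne : (p : ZMod q) ^ (2 * j) * x ≠ 0 := mul_ne_zero (pow_ne_zero _ hpq) hx
      have h1 := hT1 _ (mul_ne_zero hpq hne)
      have h2 := hT1 _ hne
      have h3 := ih x hx
      rw [e1]
      linarith
  have hTneg : V ((d : ZMod M) + g + φ (-y)) = V ((d : ZMod M) + g + φ y) := by
    have h := hTk jm y hy
    rwa [hjm, neg_one_mul] at h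
  -- distribution at three
  have d3 := hV.three hg ((d : ZMod M) + φ y)
  have e1 : 3 * ((d : ZMod M) + φ y) = -(d + φ (-(3 * y))) := by
    rw [map_neg, ph_three]
    linear_combination h4z
  rw [e1, hV.ng, hKneg, hK3] at d3
  have e2 : V ((d : ZMod M) + φ y - g) = -V (-(d : ZMod M) + g + φ (-y)) := by
    rw [← hV.ng, map_neg]; congr 1; ring
  have e3 : (d : ZMod M) + φ y + g = d + g + φ y := by ring
  rw [e2, e3] at d3
  have h1 := hsum (-y) (neg_ne_zero.mpr hy)
  rw [hTneg] at h1
  linarith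

/-- the prime `q` congruent to two modulo three and `p` a primitive root modulo `q` -/
theorem null_D (hp : p.Coprime M) (h12 : 12 ∣ M) (hq8 : q % 8 = 5) (hq3 : q % 3 = 2)
    (hp3 : p % 3 = 1) (hp2 : p % 2 = 1) (ho : orderOf (p : ZMod q) = q - 1)
    (hu : addOrderOf u = 3 * q) : Null p u := by
  have hq := (Fact.out : q.Prime)
  have hqM : q ∣ M := (Dvd.intro_left _ rfl).trans (hu ▸ addOrderOf_dvd_level u)
  obtain ⟨e, he'⟩ := hqM
  obtain ⟨d, hd'⟩ : 4 ∣ M := Dvd.dvd.trans (by norm_num) h12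
  obtain ⟨g, hg'⟩ : 3 ∣ M := Dvd.dvd.trans (by norm_num) h12
  have he : q * e = M := he'.symm
  have hd : 4 * d = M := hd'.symm
  have hg : 3 * g = M := hg'.symm
  have hd2 : 2 * (2 * d) = M := by omega
  have hcast : ((2 * d : ℕ) : ZMod M) = 2 * (d : ZMod M) := by push_cast; rfl
  have hn2 : ¬ 2 ∣ q * 3 := by omega
  have hq3' : q ≠ 3 := by omega
  have heo := order_e he
  have hnu := order_mul_zero heo
  have hxo := order_add_three heo hq3' hg
  have hx0 : (e : ZMod M) + g ≠ 0 := ne_zero_of_order hxo (by have := hq.one_lt; omega)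
  have hu0 : u ≠ 0 := ne_zero_of_order hu (by have := hq.one_lt; omega)
  have h3g : 3 * (g : ZMod M) = 0 := by
    have h1 : ((3 * g : ℕ) : ZMod M) = 0 := by rw [hg]; simp
    push_cast at h1
    exact h1
  have n1 := even_elem hd2 hn2 (v := (e : ZMod M) + g) (x := (d : ZMod M)) (c := 2)
    (by push_cast; linear_combination (3 : ZMod M) * hnu + (q : ZMod M) * h3g) (by rw [hcast])
  have hlink : Link p ((e : ZMod M) + (g : ZMod M)) ((e : ZMod M) + (g : ZMod M) + (d : ZMod M)) := by
    refine ⟨hx0, n1.1, Or.inr (Or.inr fun t => ?_)⟩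
    have hV := DF_W hp t
    have h : W p ((t : ZMod M) * ((d : ZMod M) + (g : ZMod M) + (e : ZMod M))) =
        W p ((t : ZMod M) * ((g : ZMod M) + (e : ZMod M))) := by
      rcases (by omega : p % 4 = 1 ∨ p % 4 = 3) with h4 | h4
      · have := relD1 hV he hd hg hq8 hq3 h4 hp3 ho (one_ne_zero (α := ZMod q))
        rwa [ph_one] at this
      · have := relD3 hV he hd hg hq8 hq3 h4 hp3 ho (one_ne_zero (α := ZMod q))
        rwa [ph_one] at this
    have e1 : (e : ZMod M) + g + d = d + g + e := by ring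
    have e2 : (e : ZMod M) + g = g + e := by ring
    rw [e1, e2, h]
  refine Null.of_el ?_ (null_even hd2 n1.1 n1.2)
  exact (el_supp hu0 hx0 (by rw [hu, hxo, mul_comm])).trans _ _ _ (Relation.EqvGen.rel _ _ hlink)

end D

end Pool.Agent.J4.H6.SI
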