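import Pool.Agent.J4.H6.SI.Fixes2

/-!
# The case of a prime congruent to seven modulo twelve
-/

set_option linter.unusedSectionVars false

namespace Pool.Agent.J4.H6.SI

open Finset Pool.Agent.H916R2 Pool.Agent.H916T Pool.Agent.H916U Pool.Agent.H916Z Pool.Agent.H916Q
  Pool.Agent.TH540

section arith

variable {p q : ℕ} [Fact q.Prime]

lemma neg_mul_square (h : q % 4 = 3) {x : ZMod q} (hx : ¬ IsSquare x) : IsSquare (-x) := by
  have hx0 : x ≠ 0 := by
    rintro rfl
    exact hx ⟨0, by ring⟩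
  have h4 := neg_nonsquare (q := q) h
  have h7 : quadraticChar (ZMod q) x = -1 := (quadraticChar_neg_one_iff_not_isSquare).mpr hx
  have h8 : quadraticChar (ZMod q) (-1) = -1 := (quadraticChar_neg_one_iff_not_isSquare).mpr h4.2
  have h9 : quadraticChar (ZMod q) (-x) = 1 := by
    rw [neg_eq_neg_one_mul, map_mul, h7, h8]; norm_num
  exact (quadraticChar_one_iff_isSquare (neg_ne_zero.mpr hx0)).mp h9

lemma fourth_of_square (h : q % 4 = 3) {x : ZMod q} (hx : IsSquare x) : ∃ r : ZMod q, r ^ 4 = x := by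
  obtain ⟨r, hr⟩ := hx
  by_cases h5 : IsSquare r
  · obtain ⟨c, hc⟩ := h5
    refine ⟨c, ?_⟩
    have : c ^ 4 = (c * c) * (c * c) := by ring
    rw [this, ← hc, ← hr]
  · obtain ⟨c, hc⟩ := neg_mul_square h h5
    refine ⟨c, ?_⟩
    have : c ^ 4 = (c * c) * (c * c) := by ring
    rw [this, ← hc, hr]; ring

lemma neg_three (h : q % 12 = 7) : (-3 : ZMod q) ≠ 0 ∧ ∃ r : ZMod q, r ^ 4 = -3 := by
  have hq := (Fact.out : q.Prime)
  have hF3 : Fact (Nat.Prime 3) := ⟨Nat.prime_three⟩
  refine ⟨?_, fourth_of_square (by omega) ?_⟩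
  · intro h3
    have h4 : ((3 : ℕ) : ZMod q) = 0 := by push_cast; linear_combination -h3
    rw [ZMod.natCast_eq_zero_iff] at h4
    have := (Nat.prime_dvd_prime_iff_eq hq Nat.prime_three).mp h4
    omega
  · have h2 := ZMod.exists_sq_eq_prime_iff_of_mod_four_eq_three (p := q) (q := 3) (by omega)
      (by norm_num) (by omega)
    have h3 : IsSquare ((q : ℕ) : ZMod 3) := by
      rw [cast_of_mod (p := q) (D := 3) (c := 1) (by omega), Nat.cast_one]
      exact ⟨1, by ring⟩
    have h4 : ¬ IsSquare ((3 : ℕ) : ZMod q) := fun h5 => (h2.mp h5) h3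
    have h5 := neg_mul_square (by omega : q % 4 = 3) h4
    push_cast at h5
    exact h5

end arith

variable {p M q : ℕ} [NeZero M] [Fact q.Prime] {u : ZMod M} {V : ZMod M → ℤ}

/-- adding an element of order three changes the sign -/
lemma relE (hV : DF p V) {e g : ℕ} (he : q * e = M) (hg : 3 * g = M)
    (hq12 : q % 12 = 7) (hp3 : p % 3 ≠ 0) (hpq : (p : ZMod q) ≠ 0)
    (hidx : (q - 1) ∣ 4 * orderOf (p : ZMod q)) (ho : Odd (orderOf (p : ZMod q)))
    {y : ZMod q} (hy : y ≠ 0) :
    V (ph (e : ZMod M) (q_mul_e he) y + g) = -V (ph (e : ZMod M) (q_mul_e he) y) := by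
  have hq := (Fact.out : q.Prime)
  set φ := ph (e : ZMod M) (q_mul_e he) with hφ
  have h3g : 3 * (g : ZMod M) = 0 := by
    have h1 : ((3 * g : ℕ) : ZMod M) = 0 := by rw [hg]; simp
    push_cast at h1
    exact h1
  obtain ⟨h30, r, hr⟩ := neg_three (q := q) hq12
  obtain ⟨k, hk⟩ := pow_of_four hpq hidx h30 hr
  have e3 : V (3 * φ y) = -V (φ y) := by
    have h1 := V_pow0 hV (q_mul_e he) k y
    rw [hk] at h1
    have h2 : ph (e : ZMod M) (q_mul_e he) (-3 * y) = -(3 * φ y) := by
      rw [neg_mul, map_neg, ph_three]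
    rw [h2, hV.ng] at h1
    linarith
  have d3 := hV.three hg (φ y)
  rw [e3] at d3
  rcases (by omega : p % 3 = 1 ∨ p % 3 = 2) with hp | hp
  · have hpg : (p : ZMod M) * (g : ZMod M) = g := by
      obtain ⟨c, hc⟩ : ∃ c, p = 3 * c + 1 := ⟨p / 3, by omega⟩
      rw [hc]
      push_cast
      linear_combination (c : ZMod M) * h3g
    have hqg : (q : ZMod M) * (g : ZMod M) = g := by
      obtain ⟨c, hc⟩ : ∃ c, q = 3 * c + 1 := ⟨q / 3, by omega⟩
      rw [hc]
      push_cast
      linear_combination (c : ZMod M) * h3g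
    have hn := neg_nonsquare (q := q) (by omega)
    have Kp : ∀ x : ZMod q, V ((g : ZMod M) + φ ((p : ZMod q) * x)) = V ((g : ZMod M) + φ x) := by
      intro x
      have h := V_pow hV (q_mul_e he) (z := (g : ZMod M)) 1 (by rw [pow_one, hpg]) x
      rwa [pow_one] at h
    set T : ZMod q → ℤ := fun x => V ((g : ZMod M) + φ x) + V ((g : ZMod M) + φ (-1 * x)) with hT
    have h0 : T y = 0 := by
      refine zero_of_inv hpq hidx hn.1 hn.2 T ?_ ?_ ?_ hy
      · intro x
        simp only [hT]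
        have e1 : -1 * ((p : ZMod q) * x) = (p : ZMod q) * (-1 * x) := by ring
        rw [e1, Kp, Kp]
      · intro x
        simp only [hT]
        have e1 : (-1 : ZMod q) * (-1 * x) = x := by ring
        rw [e1]
        ring
      · simp only [hT]
        have hs := sum_mul_unit (fun x => V ((g : ZMod M) + φ x)) (Units.mk0 (-1 : ZMod q) hn.1)
        rw [Units.val_mk0] at hs
        rw [sum_add_distrib, hs, dist_units hV he (q_mul_e he), hqg]
        ring
    simp only [hT] at h0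
    have e1 : φ (-1 * y) = -φ y := by rw [neg_one_mul, map_neg]
    rw [e1] at h0
    have e2 : V (φ y - g) = -V ((g : ZMod M) + -φ y) := by
      rw [← hV.ng]; congr 1; ring
    have e4 : V (φ y + g) = V ((g : ZMod M) + φ y) := by rw [add_comm]
    rw [e2] at d3
    rw [e4] at d3 ⊢
    linarith
  · obtain ⟨s, hs, hsn⟩ := exists_sq ho (pow_orderOf_eq_one (p : ZMod q))
    have hse : (p : ZMod M) ^ s * φ y = φ y := by
      have h1 : ((p ^ s : ℕ) : ZMod q) * y = y := by push_cast; rw [hsn, one_mul]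
      have h2 := ph_mul (q_mul_e he) (p ^ s) y
      rw [h1] at h2
      push_cast at h2
      exact h2.symm
    have hsg : (p : ZMod M) ^ s * (g : ZMod M) = -(g : ZMod M) := by
      have h := aux_mul (c := -1) hg (j := s) (p := p) (by
        rw [pow_self_of (four3 (by omega)) hs, cast_of_mod (c := 2) (by omega)]; decide)
      push_cast at h
      rw [h]; ring
    have t1 := (tw hV hg (x := φ y) hse hsg).1
    linarith

/-- the link between the supports of `3 q` and of `q` -/
theorem link_E (hp : p.Coprime M) (h3 : 3 ∣ M) (hq12 : q % 12 = 7)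
    (hidx : (q - 1) ∣ 4 * orderOf (p : ZMod q)) (ho : Odd (orderOf (p : ZMod q)))
    (hu : addOrderOf u = 3 * q) {v : ZMod M} (hv : addOrderOf v = q) : EL p u v := by
  have hq := (Fact.out : q.Prime)
  have hqM : q ∣ M := (Dvd.intro_left _ rfl).trans (hu ▸ addOrderOf_dvd_level u)
  have hpq : (p : ZMod q) ≠ 0 := p_ne hp hqM
  have hp3 : p % 3 ≠ 0 := by
    intro h
    have h1 := Nat.Coprime.coprime_dvd_right h3 hp
    have h2 : 3 ∣ Nat.gcd p 3 := Nat.dvd_gcd (Nat.dvd_of_mod_eq_zero h) dvd_rfl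
    rw [h1.gcd_eq_one] at h2
    omega
  obtain ⟨e, he'⟩ := hqM
  obtain ⟨g, hg'⟩ := h3
  have he : q * e = M := he'.symm
  have hg : 3 * g = M := hg'.symm
  have heo := order_e he
  have hxo := order_add_three heo (by omega) hg
  have hx0 : (e : ZMod M) + (g : ZMod M) ≠ 0 := ne_zero_of_order hxo (by have := hq.one_lt; omega)
  have hu0 : u ≠ 0 := ne_zero_of_order hu (by have := hq.one_lt; omega)
  have he0 : (e : ZMod M) ≠ 0 := ne_zero_of_order heo hq.one_lt.ne'
  have hv0 : v ≠ 0 := ne_zero_of_order hv hq.one_lt.ne'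
  have hlink : Link p ((e : ZMod M) + (g : ZMod M)) (-(e : ZMod M)) := by
    refine ⟨hx0, neg_ne_zero.mpr he0, Or.inr (Or.inr fun t => ?_)⟩
    have hV := DF_W hp t
    have h := relE hV he hg hq12 hp3 hpq hidx ho (one_ne_zero (α := ZMod q))
    rw [ph_one] at h
    have h2 := hV.ng (e : ZMod M)
    linarith
  exact ((el_supp hu0 hx0 (by rw [hu, hxo, mul_comm])).trans _ _ _
    (Relation.EqvGen.rel _ _ hlink)).trans _ _ _
    (el_supp (neg_ne_zero.mpr he0) hv0 (by rw [addOrderOf_neg, heo, hv]))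

/-- a surface with odd parities at `3 q` and `q` -/
theorem surf_E (hp : p.Coprime M) (h3 : 3 ∣ M) (hqM : q ∣ M) (hq12 : q % 12 = 7)
    (hidx : (q - 1) ∣ 4 * orderOf (p : ZMod q)) (ho : Odd (orderOf (p : ZMod q))) :
    ∃ a b c v : ZMod M, SurfaceTate p M {a, b, c, v} ∧ addOrderOf a = q * 3 ∧
      addOrderOf b = q * 3 ∧ addOrderOf c = q * 3 ∧ addOrderOf v = q := by
  have hq := (Fact.out : q.Prime)
  have hpq : (p : ZMod q) ≠ 0 := p_ne hp hqM
  have hp3 : p % 3 ≠ 0 := by
    intro h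
    have h1 := Nat.Coprime.coprime_dvd_right h3 hp
    have h2 : 3 ∣ Nat.gcd p 3 := Nat.dvd_gcd (Nat.dvd_of_mod_eq_zero h) dvd_rfl
    rw [h1.gcd_eq_one] at h2
    omega
  obtain ⟨e, he'⟩ := hqM
  obtain ⟨g, hg'⟩ := h3
  have he : q * e = M := he'.symm
  have hg : 3 * g = M := hg'.symm
  have heo := order_e he
  have hnu := order_mul_zero heo
  have h3g : 3 * (g : ZMod M) = 0 := by
    have h1 : ((3 * g : ℕ) : ZMod M) = 0 := by rw [hg]; simp
    push_cast at h1
    exact h1
  have hq3 : q ≠ 3 := by omega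
  have hq2 : q ≠ 2 := by omega
  have o4 : addOrderOf (4 * (e : ZMod M)) = q := by
    have h := order_two heo 4 (by
      rw [show (4 : ℕ) = 2 ^ 2 by norm_num]
      exact Nat.Coprime.pow_right _ ((Nat.coprime_primes hq Nat.prime_two).mpr hq2))
    push_cast at h
    exact h
  have o9 : addOrderOf (-(9 * (e : ZMod M))) = q := by
    have h := order_two heo 9 (by
      rw [show (9 : ℕ) = 3 ^ 2 by norm_num]
      exact Nat.Coprime.pow_right _ ((Nat.coprime_primes hq Nat.prime_three).mpr hq3))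
    push_cast at h
    rw [addOrderOf_neg, h]
  have x4 := order_add_three o4 hq3 hg
  have x9 := order_add_three o9 hq3 hg
  have hne : ∀ {x : ZMod M}, addOrderOf x = q * 3 → x ≠ 0 := fun hx =>
    ne_zero_of_order hx (by have := hq.one_lt; omega)
  refine ⟨4 * (e : ZMod M) + g, 4 * (e : ZMod M) + g, -(9 * (e : ZMod M)) + g, (e : ZMod M), ?_,
    x4, x4, x9, heo⟩
  refine surface_of hp (hne x4) (hne x4) (hne x9) (ne_zero_of_order heo hq.one_lt.ne')
    (by linear_combination h3g) (fun t => ?_)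
  have hV := DF_W hp t
  have h20 : (2 : ZMod q) ≠ 0 := by
    intro h
    have h3 : ((2 : ℕ) : ZMod q) = 0 := by push_cast; exact h
    rw [ZMod.natCast_eq_zero_iff] at h3
    exact hq2 ((Nat.prime_dvd_prime_iff_eq hq Nat.prime_two).mp h3)
  have h30 : (3 : ZMod q) ≠ 0 := by
    intro h
    have h3 : ((3 : ℕ) : ZMod q) = 0 := by push_cast; exact h
    rw [ZMod.natCast_eq_zero_iff] at h3
    exact hq3 ((Nat.prime_dvd_prime_iff_eq hq Nat.prime_three).mp h3)
  have h40 : (4 : ZMod q) ≠ 0 := by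
    intro h
    have : (2 : ZMod q) * 2 = 0 := by linear_combination h
    rcases mul_eq_zero.mp this with h' | h' <;> exact h20 h'
  have h90 : (9 : ZMod q) ≠ 0 := by
    intro h
    have : (3 : ZMod q) * 3 = 0 := by linear_combination h
    rcases mul_eq_zero.mp this with h' | h' <;> exact h30 h'
  obtain ⟨r4, hr4⟩ := fourth_of_square (by omega : q % 4 = 3) (x := (4 : ZMod q)) ⟨2, by norm_num⟩
  obtain ⟨r9, hr9⟩ := fourth_of_square (by omega : q % 4 = 3) (x := (9 : ZMod q)) ⟨3, by norm_num⟩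
  obtain ⟨k4, hk4⟩ := pow_of_four hpq hidx h40 hr4
  obtain ⟨k9, hk9⟩ := pow_of_four hpq hidx h90 hr9
  have p4 : ph (e : ZMod M) (q_mul_e he) (4 : ZMod q) = 4 * e := by
    have := ph_nat (q_mul_e he) 4
    push_cast at this
    exact this
  have p9 : ph (e : ZMod M) (q_mul_e he) (-9 : ZMod q) = -(9 * e) := by
    have := ph_nat (q_mul_e he) 9
    push_cast at this
    rw [map_neg, this]
  have r1 := relE hV he hg hq12 hp3 hpq hidx ho h40
  have r2 := relE hV he hg hq12 hp3 hpq hidx ho (neg_ne_zero.mpr h90)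
  rw [p4] at r1
  rw [p9] at r2
  have v4 := V_pow0 hV (q_mul_e he) k4 (1 : ZMod q)
  rw [hk4, mul_one, p4, ph_one] at v4
  have v9 := V_pow0 hV (q_mul_e he) k9 (-1 : ZMod q)
  rw [hk9, mul_neg_one, p9, map_neg, ph_one] at v9
  have n1 := hV.ng (e : ZMod M)
  linarith

end Pool.Agent.J4.H6.SI
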