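import Pool.Agent.J4.H6.SI.Fixes3

/-!
# The theorem for characteristics of index dividing four
-/

set_option linter.unusedSectionVars false

namespace Pool.Agent.J4.H6.SI

open Finset Pool.Agent.H916R2 Pool.Agent.H916T Pool.Agent.H916U Pool.Agent.H916Z Pool.Agent.H916Q
  Pool.Agent.H916Y Pool.Agent.TH540

variable {p : ℕ}

/-- **The general theorem**: the supports are dead, or even, or can be corrected. -/
theorem main_even {m k : ℕ} (hp : p.Prime) (hm : 0 < m) (hpm : p.Coprime m) (hk : 0 < k)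
    (hpk : p.Coprime k) {s : Multiset (ZMod m)} (hs : IsTate p m s) (hne : s ≠ 0)
    (H : ∀ S : Finset ℕ, S.Nonempty → 2 ∉ S → S ⊆ m.primeFactors → ¬ Dead p S →
      Even (s.countP (Supp S)) ∨ ∀ (_ : NeZero (k * m)) (u : ZMod (k * m)),
        addOrderOf u = ∏ q ∈ S, q → Fix p u) :
    ∃ N : ℕ, 0 < N ∧ p.Coprime N ∧ ∀ M : ℕ, N * m = M →
      H916T.Generated M (ZBase p M) (s.map (iota N : ZMod m → ZMod M)) := by
  classical
  have hz : NeZero m := ⟨hm.ne'⟩
  have hM : 0 < k * m := Nat.mul_pos hk hm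
  have hzM : NeZero (k * m) := ⟨hM.ne'⟩
  have hpM : p.Coprime (k * m) := Nat.Coprime.mul_right hpk hpm
  refine parity_fix hp hm hk rfl hpM hs hne (fun S => Even (s.countP (Supp S)))
    (fun S hS => hS) ?_
  intro a ha0 ham hE
  by_cases h2 : 2 ∣ addOrderOf a
  · obtain ⟨d, hd⟩ := h2.trans (addOrderOf_dvd_level a)
    exact fix_null (null_even hd.symm ha0 h2)
  · set S := (addOrderOf a).primeFactors with hS
    have hpos := addOrderOf_pos a
    have hne' : S.Nonempty := by
      rw [Finset.nonempty_iff_ne_empty]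
      intro h
      rw [hS, Nat.primeFactors_eq_empty] at h
      rcases h with h | h
      · exact hpos.ne' h
      · rw [AddMonoid.addOrderOf_eq_one_iff] at h
        exact ha0 h
    have hprime : ∀ q ∈ S, q.Prime := fun q hq => Nat.prime_of_mem_primeFactors hq
    have h2S : 2 ∉ S := fun h => h2 (Nat.dvd_of_mem_primeFactors h)
    have hSm : S ⊆ m.primeFactors := Nat.primeFactors_mono ham hm.ne'
    set n := ∏ q ∈ S, q with hn
    have hna : n ∣ addOrderOf a := Nat.prod_primeFactors_dvd _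
    have hnm : n ∣ m := hna.trans ham
    have hn2 : ¬ 2 ∣ n := fun h => h2 (h.trans hna)
    have hn1 : 1 < n := by
      obtain ⟨q, hq⟩ := hne'
      have h1 : q ∣ n := Finset.dvd_prod_of_mem _ hq
      have h3 := (hprime q hq).one_lt
      have h4 := Nat.le_of_dvd (Nat.pos_of_ne_zero (by rintro h; rw [h] at hn2; exact hn2 (dvd_zero 2))) h1
      omega
    have hnM : n ∣ k * m := hnm.trans (Dvd.intro_left _ rfl)
    have hxo := order_elem (M := k * m) hnM
    have hx0 := ne_zero_of_order hxo hn1.ne'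
    have hax : EL p a (((k * m) / n : ℕ) : ZMod (k * m)) := by
      refine el_supp ha0 hx0 ?_
      rw [hxo, hn, Nat.primeFactors_prod hprime]
    by_cases hdead : H916Y.Dead p S
    · obtain ⟨j, hj⟩ := hdead
      refine fix_link hax (fix_null (fix_neg_one (k := j) hxo hn1.ne' ?_))
      have h1 : ((p ^ j + 1 : ℕ) : ZMod n) = 0 := (ZMod.natCast_eq_zero_iff _ _).mpr hj
      push_cast at h1
      linear_combination h1
    rcases H S hne' h2S hSm hdead with h | h
    · exact absurd h hE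
    · exact fix_link hax (h hzM _ hxo)

section facts

variable {q : ℕ} [Fact q.Prime]

lemma half_pow (ho0 : 0 < orderOf (p : ZMod q)) (he : Even (orderOf (p : ZMod q))) :
    (p : ZMod q) ^ (orderOf (p : ZMod q) / 2) = -1 := by
  obtain ⟨c, hc⟩ := he
  have h1 : (p : ZMod q) ^ c * (p : ZMod q) ^ c = 1 := by
    rw [← pow_add, ← hc]; exact pow_orderOf_eq_one _
  have h0 : orderOf (p : ZMod q) / 2 = c := by omega
  rw [h0]
  rcases mul_self_eq_one_iff.mp h1 with h2 | h2
  · exfalso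
    have h3 := orderOf_dvd_of_pow_eq_one h2
    have h4 := Nat.le_of_dvd (by omega) h3
    omega
  · exact h2

lemma order_pos' (hpq : (p : ZMod q) ≠ 0) : 0 < orderOf (p : ZMod q) := by
  rw [orderOf_pos_iff, isOfFinOrder_iff_pow_eq_one]
  have hq := (Fact.out : q.Prime)
  have := hq.one_lt
  exact ⟨q - 1, by omega, ZMod.pow_card_sub_one_eq_one hpq⟩

lemma dead_q (hpq : (p : ZMod q) ≠ 0) (he : Even (orderOf (p : ZMod q))) : Dead p {q} := by
  refine ⟨orderOf (p : ZMod q) / 2, ?_⟩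
  rw [prod_singleton, ← ZMod.natCast_eq_zero_iff]
  push_cast
  rw [half_pow (order_pos' hpq) he]
  ring

lemma square_of_odd (ho : Odd (orderOf (p : ZMod q))) : IsSquare (p : ZMod q) := by
  obtain ⟨c, hc⟩ := ho
  refine ⟨(p : ZMod q) ^ (c + 1), ?_⟩
  rw [← pow_add]
  have h1 : c + 1 + (c + 1) = orderOf (p : ZMod q) + 1 := by omega
  rw [h1, pow_succ, pow_orderOf_eq_one, one_mul]

lemma order_dvd (hpq : (p : ZMod q) ≠ 0) : orderOf (p : ZMod q) ∣ q - 1 :=
  orderOf_dvd_of_pow_eq_one (ZMod.pow_card_sub_one_eq_one hpq)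

lemma order_of_square (hq2 : q ≠ 2) (hpq : (p : ZMod q) ≠ 0) (hs : IsSquare (p : ZMod q)) :
    orderOf (p : ZMod q) ∣ (q - 1) / 2 := by
  have hq := (Fact.out : q.Prime)
  obtain ⟨c, hc⟩ := hs
  have hc0 : c ≠ 0 := by
    rintro rfl
    exact hpq (by rw [hc, mul_zero])
  apply orderOf_dvd_of_pow_eq_one
  have hodd : q % 2 = 1 := hq.eq_two_or_odd.resolve_left hq2
  rw [hc, ← sq, ← pow_mul, show 2 * ((q - 1) / 2) = q - 1 by omega]
  exact ZMod.pow_card_sub_one_eq_one hc0

/-- nonsquares of index dividing four whose index is odd are primitive roots -/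
lemma prim_of_nonsquare (hq2 : q ≠ 2) (hpq : (p : ZMod q) ≠ 0)
    (hidx : (q - 1) ∣ 4 * orderOf (p : ZMod q)) (hs : ¬ IsSquare (p : ZMod q)) :
    orderOf (p : ZMod q) = q - 1 := by
  have hq := (Fact.out : q.Prime)
  have h0 := order_pos' hpq
  obtain ⟨c, hc⟩ := order_dvd hpq
  have hc4 : c ∣ 4 := by
    rw [hc, mul_comm 4] at hidx
    exact Nat.dvd_of_mul_dvd_mul_left h0 hidx
  have hcodd : ¬ 2 ∣ c := by
    rintro ⟨c', rfl⟩
    apply hs
    have hodd : q % 2 = 1 := hq.eq_two_or_odd.resolve_left hq2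
    have h1 : (p : ZMod q) ^ ((q - 1) / 2) = 1 := by
      have h2 : (q - 1) / 2 = orderOf (p : ZMod q) * c' := by
        rw [hc]
        have : orderOf (p : ZMod q) * (2 * c') = 2 * (orderOf (p : ZMod q) * c') := by ring
        omega
      rw [h2, pow_mul, pow_orderOf_eq_one, one_pow]
    rw [ZMod.euler_criterion q hpq]
    have h3 : q / 2 = (q - 1) / 2 := by omega
    rw [h3]
    exact h1
  have hc1 : c = 1 := by
    have h5 := Nat.le_of_dvd (by norm_num) hc4
    interval_cases c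
    · exact absurd (dvd_zero 2) hcodd
    · rfl
    · exact absurd dvd_rfl hcodd
    · omega
    · exact absurd (by norm_num : 2 ∣ 4) hcodd
  rw [hc, hc1, mul_one]

lemma p_ne_two (h : q % 8 = 3 ∨ q % 8 = 5) (hs : IsSquare (p : ZMod q)) : p ≠ 2 := by
  rintro rfl
  exact (two_nonsquare h).2 (by exact_mod_cast hs)

end facts

section cases

variable {M q : ℕ} [NeZero M] [Fact q.Prime] {u : ZMod M}

theorem fix_q (hp : p.Prime) (hpM : p.Coprime M) (hM : p ≠ 2 → 8 ∣ M) (hq2 : q ≠ 2)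
    (hq7 : q % 8 ≠ 7) (hidx : (q - 1) ∣ 4 * orderOf (p : ZMod q))
    (ho : Odd (orderOf (p : ZMod q))) (hu : addOrderOf u = q) : Fix p u := by
  have hq := (Fact.out : q.Prime)
  have hqM : q ∣ M := hu ▸ addOrderOf_dvd_level u
  have hpq : (p : ZMod q) ≠ 0 := p_ne hpM hqM
  have hodd : q % 2 = 1 := hq.eq_two_or_odd.resolve_left hq2
  have hq1 : q % 8 ≠ 1 := by
    intro h
    obtain ⟨c, hc⟩ : ∃ c, q - 1 = 8 * c := ⟨(q - 1) / 8, by omega⟩
    rw [hc] at hidx
    obtain ⟨j, hj⟩ := hidx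
    obtain ⟨i, hi⟩ := ho
    have : 4 * (2 * c * j) = 4 * orderOf (p : ZMod q) := by rw [hj]; ring
    have h2 : 2 * (c * j) = orderOf (p : ZMod q) := by
      have h3 := Nat.eq_of_mul_eq_mul_left (by norm_num) this
      rw [← h3]; ring
    omega
  have hsq := square_of_odd ho
  have h35 : q % 8 = 3 ∨ q % 8 = 5 := by omega
  have hp2 := p_ne_two h35 hsq
  have hpo : p % 2 = 1 := hp.eq_two_or_odd.resolve_left hp2
  have h8M := hM hp2
  have h4M : 4 ∣ M := Dvd.dvd.trans (by norm_num) h8M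
  have hn2 : ¬ 2 ∣ q := by omega
  rcases h35 with h3 | h5
  · obtain ⟨r, hr⟩ := neg_two (q := q) h3
    obtain ⟨k, hk⟩ := pow_of_four hpq hidx (neg_ne_zero.mpr (two_nonsquare (Or.inl h3)).1) hr
    rcases (by omega : p % 4 = 3 ∨ p % 8 = 5 ∨ p % 8 = 1) with h | h | h
    · exact fix_null (fix_two3 hpM h h4M hu hq.one_lt.ne' hn2 ho (pow_orderOf_eq_one _) hk)
    · exact fix_two5 hpM h h8M hu hq.one_lt.ne' hn2 ho (pow_orderOf_eq_one _) hk
    · exact fix_B hpM h8M h3 h hidx hu
  · rcases (by omega : p % 4 = 3 ∨ p % 4 = 1) with h | h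
    · obtain ⟨r, hr⟩ := neg_four (q := q) h5
      have h2 := two_nonsquare (q := q) (Or.inr h5)
      have h40 : (-4 : ZMod q) ≠ 0 := by
        intro h
        have h3 : (2 : ZMod q) * 2 = 0 := by linear_combination -h
        rcases mul_eq_zero.mp h3 with h4 | h4 <;> exact h2.1 h4
      obtain ⟨k, hk⟩ := pow_of_four hpq hidx h40 hr
      exact fix_four hpM h h4M hu hq.one_lt.ne' hn2 ho (pow_orderOf_eq_one _) hk
    · exact fix_A hpM h4M h5 h hidx hu

theorem fix_3 (hpM : p.Coprime M) (hM : 24 ∣ M) (hp3 : p % 3 = 1) (hp2 : p % 2 = 1)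
    (hu : addOrderOf u = 3) : Fix p u := by
  have h8M : 8 ∣ M := Dvd.dvd.trans (by norm_num) hM
  have h4M : 4 ∣ M := Dvd.dvd.trans (by norm_num) hM
  have h1 : ((p : ℕ) : ZMod 3) = 1 := by
    have := cast_of_mod (p := p) (D := 3) (c := 1) hp3
    push_cast at this
    exact this
  have hk : ((p : ℕ) : ZMod 3) ^ 0 = -2 := by rw [pow_zero]; decide
  have hf : ((p : ℕ) : ZMod 3) ^ 1 = 1 := by rw [pow_one, h1]
  rcases (by omega : p % 4 = 3 ∨ p % 8 = 5 ∨ p % 8 = 1) with h | h | h
  · exact fix_null (fix_two3 hpM h h4M hu (by norm_num) (by norm_num) odd_one hf hk)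
  · exact fix_two5 hpM h h8M hu (by norm_num) (by norm_num) odd_one hf hk
  · have hF3 : Fact (Nat.Prime 3) := ⟨Nat.prime_three⟩
    refine fix_B (q := 3) hpM h8M (by norm_num) h ?_ hu
    exact Dvd.dvd.trans (by norm_num) (Dvd.intro _ rfl)

lemma dead_3q (hq3 : q ≠ 3) (hpq : (p : ZMod q) ≠ 0) (hp3 : p % 3 = 2)
    (he : Even (orderOf (p : ZMod q))) (h4 : ¬ 4 ∣ orderOf (p : ZMod q)) : Dead p {3, q} := by
  have hq := (Fact.out : q.Prime)
  have hprod : ∏ r ∈ ({3, q} : Finset ℕ), r = 3 * q := by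
    rw [prod_insert (by rw [mem_singleton]; exact hq3.symm), prod_singleton]
  refine ⟨orderOf (p : ZMod q) / 2, ?_⟩
  rw [hprod]
  apply Nat.Coprime.mul_dvd_of_dvd_of_dvd ((Nat.coprime_primes Nat.prime_three hq).mpr hq3.symm)
  · rw [← ZMod.natCast_eq_zero_iff]
    push_cast
    have h1 : ((p : ℕ) : ZMod 3) = 2 := by
      have := cast_of_mod (p := p) (D := 3) (c := 2) hp3
      push_cast at this
      exact this
    have e2 : (2 : ZMod 3) ^ 2 = 1 := by decide
    have h2 : orderOf (p : ZMod q) / 2 = 2 * (orderOf (p : ZMod q) / 4) + 1 := by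
      obtain ⟨c, hc⟩ := he
      omega
    rw [h1, h2, pow_add, pow_mul, e2, one_pow]
    decide
  · rw [← ZMod.natCast_eq_zero_iff]
    push_cast
    rw [half_pow (order_pos' hpq) he]
    ring

/-- the support `{3, q}` for `q` congruent to five modulo eight -/
theorem fix_3q5 (hp : p.Prime) (hpM : p.Coprime M) (hM : p ≠ 2 → 24 ∣ M) (hq8 : q % 8 = 5)
    (hidx : (q - 1) ∣ 4 * orderOf (p : ZMod q)) (hp3 : p % 3 ≠ 0)
    (hD : ¬ Dead p {3, q}) (hJ : ¬ (p % 3 = 1 ↔ IsSquare (p : ZMod q)))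
    (hu : addOrderOf u = 3 * q) : Fix p u := by
  have hq := (Fact.out : q.Prime)
  have hqM : q ∣ M := (Dvd.intro_left _ rfl).trans (hu ▸ addOrderOf_dvd_level u)
  have hpq : (p : ZMod q) ≠ 0 := p_ne hpM hqM
  have hq2 : q ≠ 2 := by omega
  have hq3 : q ≠ 3 := by omega
  by_cases hs : IsSquare (p : ZMod q)
  · have h3 : p % 3 = 2 := by
      have : p % 3 ≠ 1 := fun h => hJ ⟨fun _ => hs, fun _ => h⟩
      omega
    have hp2 := p_ne_two (Or.inr hq8) hs
    have hpo : p % 2 = 1 := hp.eq_two_or_odd.resolve_left hp2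
    have h24 := hM hp2
    have h12 : 12 ∣ M := Dvd.dvd.trans (by norm_num) h24
    have ho : Odd (orderOf (p : ZMod q)) := by
      rw [← Nat.not_even_iff_odd]
      intro he
      apply hD
      refine dead_3q hq3 hpq h3 he ?_
      intro h4
      have h5 := h4.trans (order_of_square hq2 hpq hs)
      omega
    rcases (by omega : p % 12 = 5 ∨ p % 12 = 11) with h | h
    · exact fix_C hpM h12 hq8 h hidx ho hu
    · exact fix_C' hpM h12 hq8 h hidx ho hu
  · have h3 : p % 3 = 1 := by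
      by_contra h
      exact hJ ⟨fun h' => absurd h' h, fun h' => absurd h' hs⟩
    have ho := prim_of_nonsquare hq2 hpq hidx hs
    have hp2 : p ≠ 2 := by rintro rfl; omega
    have hpo : p % 2 = 1 := hp.eq_two_or_odd.resolve_left hp2
    have h24 := hM hp2
    have h12 : 12 ∣ M := Dvd.dvd.trans (by norm_num) h24
    have hq30 : q % 3 ≠ 0 := by
      intro h
      exact hq3 ((Nat.prime_dvd_prime_iff_eq Nat.prime_three hq).mp
        (Nat.dvd_of_mod_eq_zero h)).symm
    rcases (by omega : q % 3 = 1 ∨ q % 3 = 2) with h | h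
    · exact fix_null (null_prim hpM h3 h ho hu)
    · exact fix_null (null_D hpM h12 hq8 h h3 hpo ho hu)

/-- the support `{3, q}` for `q` congruent to seven modulo twelve -/
theorem fix_3q7 (hp : p.Prime) (hpM : p.Coprime M) (hM : p ≠ 2 → 24 ∣ M) (h3M : 3 ∣ M)
    (hq12 : q % 12 = 7)
    (hidx : (q - 1) ∣ 4 * orderOf (p : ZMod q)) (hp3 : p % 3 ≠ 0)
    (hD : ¬ Dead p {3, q}) (h24 : q % 24 = 7 → Even (orderOf (p : ZMod q)))
    (hu : addOrderOf u = 3 * q) : Fix p u := by
  have hq := (Fact.out : q.Prime)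
  have hqM : q ∣ M := (Dvd.intro_left _ rfl).trans (hu ▸ addOrderOf_dvd_level u)
  have hpq : (p : ZMod q) ≠ 0 := p_ne hpM hqM
  have hq2 : q ≠ 2 := by omega
  have hq3 : q ≠ 3 := by omega
  by_cases ho : Odd (orderOf (p : ZMod q))
  · have h19 : q % 24 = 19 := by
      have : q % 24 ≠ 7 := fun h => (Nat.not_even_iff_odd.mpr ho) (h24 h)
      omega
    have heo := order_elem (M := M) hqM
    refine fix_link (link_E hpM h3M hq12 hidx ho hu heo) (fix_q hp hpM
      (fun h => Dvd.dvd.trans (by norm_num) (hM h)) hq2 (by omega) hidx ho heo)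
  · rw [Nat.not_odd_iff_even] at ho
    have h4 : ¬ 4 ∣ orderOf (p : ZMod q) := by
      intro h
      have := h.trans (order_dvd hpq)
      omega
    have hs : ¬ IsSquare (p : ZMod q) := by
      intro hs
      have h5 := (even_iff_two_dvd.mp ho).trans (order_of_square hq2 hpq hs)
      omega
    have h3 : p % 3 = 1 := by
      by_contra h
      exact hD (dead_3q hq3 hpq (by omega) ho h4)
    exact fix_null (null_prim hpM h3 (by omega) (prim_of_nonsquare hq2 hpq hidx hs) hu)

/-- the support `{3, q}` for `q` congruent to eleven modulo twelve -/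
theorem fix_3q11 (hpM : p.Coprime M) (hq12 : q % 12 = 11)
    (hidx : (q - 1) ∣ 4 * orderOf (p : ZMod q)) (hp3 : p % 3 = 2)
    (hD : ¬ Dead p {3, q}) (hu : addOrderOf u = 3 * q) : Fix p u := by
  have hq := (Fact.out : q.Prime)
  have hqM : q ∣ M := (Dvd.intro_left _ rfl).trans (hu ▸ addOrderOf_dvd_level u)
  have hpq : (p : ZMod q) ≠ 0 := p_ne hpM hqM
  have hq3 : q ≠ 3 := by omega
  have ho : Odd (orderOf (p : ZMod q)) := by
    rw [← Nat.not_even_iff_odd]
    intro he
    apply hD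
    refine dead_3q hq3 hpq hp3 he ?_
    intro h
    have := h.trans (order_dvd hpq)
    omega
  have h30 : (3 : ZMod q) ≠ 0 := by
    intro h
    have h3 : ((3 : ℕ) : ZMod q) = 0 := by push_cast; exact h
    rw [ZMod.natCast_eq_zero_iff] at h3
    exact hq3 ((Nat.prime_dvd_prime_iff_eq hq Nat.prime_three).mp h3)
  have h3s : IsSquare (3 : ZMod q) := by
    have hF3 : Fact (Nat.Prime 3) := ⟨Nat.prime_three⟩
    have h2 := ZMod.exists_sq_eq_prime_iff_of_mod_four_eq_three (p := q) (q := 3) (by omega)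
      (by norm_num) (by omega)
    have h4 : IsSquare ((3 : ℕ) : ZMod q) := by
      rw [h2, cast_of_mod (p := q) (D := 3) (c := 2) (by omega)]
      exact not_sq23
    exact_mod_cast h4
  obtain ⟨r, hr⟩ := fourth_of_square (by omega : q % 4 = 3) h3s
  obtain ⟨j, hj⟩ := pow_of_four hpq hidx h30 hr
  have h3p : orderOf (((p : ℕ) : ZMod 3) ^ orderOf (p : ZMod q)) = 3 - 1 := by
    obtain ⟨c, hc⟩ := ho
    have e1 : ((p : ℕ) : ZMod 3) = 2 := by
      have := cast_of_mod (p := p) (D := 3) (c := 2) (by omega)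
      push_cast at this
      exact this
    have e2 : (2 : ZMod 3) ^ 2 = 1 := by decide
    rw [hc, e1, pow_add, pow_mul, e2, one_pow, one_mul, pow_one]
    apply orderOf_eq_prime e2
    decide
  refine fix_null (null_pure hpM Nat.prime_three ?_ hu
    (pow_orderOf_eq_one _) h3p (j := j) (by push_cast; exact hj))
  exact (Nat.coprime_primes hq Nat.prime_three).mpr hq3

end cases

end Pool.Agent.J4.H6.SI
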