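import Pool.Agent.J4.H6.SI.Const

/-!
# Two relations of surfaces which use the distribution relation at the prime
-/

set_option linter.unusedSectionVars false

namespace Pool.Agent.J4.H6.SI

open Finset Pool.Agent.H916R2 Pool.Agent.H916T Pool.Agent.H916U Pool.Agent.H916Z Pool.Agent.H916Q
  Pool.Agent.TH540

section arith

variable {p q : ℕ} [Fact q.Prime]

/-- fourth powers are powers of `p` if the index of `p` divides four -/
lemma pow_of_four (hpq : (p : ZMod q) ≠ 0) (hidx : (q - 1) ∣ 4 * orderOf (p : ZMod q))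
    {r x : ZMod q} (hx : x ≠ 0) (hr : r ^ 4 = x) : ∃ k : ℕ, (p : ZMod q) ^ k = x := by
  have hq := (Fact.out : q.Prime)
  have hr0 : r ≠ 0 := by
    rintro rfl
    apply hx
    rw [← hr]
    norm_num
  set a : (ZMod q)ˣ := Units.mk0 (p : ZMod q) hpq with ha
  have hao : orderOf a = orderOf (p : ZMod q) := by rw [← orderOf_units, ha, Units.val_mk0]
  have hcard : Nat.card (ZMod q)ˣ = q - 1 := by
    rw [Nat.card_eq_fintype_card, ZMod.card_units_eq_totient, Nat.totient_prime hq]
  have h1 := four_mem (a := a) (by rw [hcard, hao]; exact hidx) (Units.mk0 r hr0)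
  rw [← mem_powers_iff_mem_zpowers] at h1
  obtain ⟨k, hk⟩ := h1
  refine ⟨k, ?_⟩
  have h2 := congrArg Units.val hk
  simp only [Units.val_pow_eq_pow_val] at h2
  rw [ha, Units.val_mk0, Units.val_mk0, hr] at h2
  exact h2

/-- invariant functions on the units with sum zero vanish -/
lemma zero_of_inv (hpq : (p : ZMod q) ≠ 0) (hidx : (q - 1) ∣ 4 * orderOf (p : ZMod q))
    {b : ZMod q} (hb0 : b ≠ 0) (hb : ¬ IsSquare b) (f : ZMod q → ℤ)
    (h1 : ∀ x, f ((p : ZMod q) * x) = f x) (h2 : ∀ x, f (b * x) = f x)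
    (h0 : ∑ x : (ZMod q)ˣ, f (x : ZMod q) = 0) {x : ZMod q} (hx : x ≠ 0) : f x = 0 := by
  have hq := (Fact.out : q.Prime)
  set a : (ZMod q)ˣ := Units.mk0 (p : ZMod q) hpq with ha
  have hao : orderOf a = orderOf (p : ZMod q) := by rw [← orderOf_units, ha, Units.val_mk0]
  have hcard : Nat.card (ZMod q)ˣ = q - 1 := by
    rw [Nat.card_eq_fintype_card, ZMod.card_units_eq_totient, Nat.totient_prime hq]
  have h3 := zero_of (a := a) (b := Units.mk0 b hb0) (by rw [hcard, hao]; exact hidx) (by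
      rintro ⟨c, hc⟩
      apply hb
      refine ⟨(c : ZMod q), ?_⟩
      have h4 := congrArg Units.val hc
      rw [Units.val_mk0, Units.val_mul] at h4
      exact h4) (fun y => f (y : ZMod q)) (fun y => by
        simp only [Units.val_mul, ha, Units.val_mk0]; exact h1 _) (fun y => by
        simp only [Units.val_mul, Units.val_mk0]; exact h2 _) h0 (Units.mk0 x hx)
  simpa using h3

/-- invariant functions on the units are constant -/
lemma const_of_inv (hpq : (p : ZMod q) ≠ 0) (hidx : (q - 1) ∣ 4 * orderOf (p : ZMod q))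
    {b : ZMod q} (hb0 : b ≠ 0) (hb : ¬ IsSquare b) (f : ZMod q → ℤ)
    (h1 : ∀ x, f ((p : ZMod q) * x) = f x) (h2 : ∀ x, f (b * x) = f x)
    {x y : ZMod q} (hx : x ≠ 0) (hy : y ≠ 0) : f x = f y := by
  have hq := (Fact.out : q.Prime)
  set a : (ZMod q)ˣ := Units.mk0 (p : ZMod q) hpq with ha
  have hao : orderOf a = orderOf (p : ZMod q) := by rw [← orderOf_units, ha, Units.val_mk0]
  have hcard : Nat.card (ZMod q)ˣ = q - 1 := by
    rw [Nat.card_eq_fintype_card, ZMod.card_units_eq_totient, Nat.totient_prime hq]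
  have h3 := const_of (a := a) (b := Units.mk0 b hb0) (by rw [hcard, hao]; exact hidx) (by
      rintro ⟨c, hc⟩
      apply hb
      refine ⟨(c : ZMod q), ?_⟩
      have h4 := congrArg Units.val hc
      rw [Units.val_mk0, Units.val_mul] at h4
      exact h4) (fun y => f (y : ZMod q)) (fun y => by
        simp only [Units.val_mul, ha, Units.val_mk0]; exact h1 _) (fun y => by
        simp only [Units.val_mul, Units.val_mk0]; exact h2 _) (Units.mk0 x hx) (Units.mk0 y hy)
  simpa using h3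

/-- every residue is, up to sign and a factor two, a power of `p` -/
lemma four_classes (hpq : (p : ZMod q) ≠ 0) (hidx : (q - 1) ∣ 4 * orderOf (p : ZMod q))
    (h2 : (2 : ZMod q) ≠ 0) (h2s : ¬ IsSquare (2 : ZMod q))
    {k : ℕ} (hk : (p : ZMod q) ^ k = -4) {c : ZMod q} (hc : c ≠ 0) :
    ∃ l : ℕ, (p : ZMod q) ^ l = c ∨ (p : ZMod q) ^ l = -c ∨ 2 * (p : ZMod q) ^ l = c ∨
      2 * (p : ZMod q) ^ l = -c := by
  have hq := (Fact.out : q.Prime)
  set a : (ZMod q)ˣ := Units.mk0 (p : ZMod q) hpq with ha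
  set b : (ZMod q)ˣ := Units.mk0 (2 : ZMod q) h2 with hb
  have hao : orderOf a = orderOf (p : ZMod q) := by rw [← orderOf_units, ha, Units.val_mk0]
  have hcard : Nat.card (ZMod q)ˣ = q - 1 := by
    rw [Nat.card_eq_fintype_card, ZMod.card_units_eq_totient, Nat.totient_prime hq]
  have hak : a ^ k = -(b ^ 2) := by
    apply Units.ext
    rw [Units.val_pow_eq_pow_val, ha, Units.val_mk0, hk, Units.val_neg, Units.val_pow_eq_pow_val,
      hb, Units.val_mk0]
    norm_num
  have htop := top_of (a := a) (b := b) (by rw [hcard, hao]; exact hidx) (by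
      rintro ⟨c, hc⟩
      apply h2s
      refine ⟨(c : ZMod q), ?_⟩
      have h4 := congrArg Units.val hc
      rw [hb, Units.val_mk0, Units.val_mul] at h4
      exact h4) (Subgroup.closure {a, b}) (Subgroup.subset_closure (by simp))
      (Subgroup.subset_closure (by simp))
  have hmem : Units.mk0 c hc ∈ Subgroup.closure {a, b} := by rw [htop]; exact Subgroup.mem_top _
  rw [Subgroup.mem_closure_pair] at hmem
  obtain ⟨m, n, hmn⟩ := hmem
  have key : ∃ l : ℤ, Units.mk0 c hc = a ^ l ∨ Units.mk0 c hc = -(a ^ l) ∨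
      Units.mk0 c hc = b * a ^ l ∨ Units.mk0 c hc = -(b * a ^ l) := by
    have hb2 : b ^ (2 : ℤ) = -(a ^ (k : ℤ)) := by
      rw [zpow_natCast, hak, neg_neg]
      norm_cast
    have hbj : ∀ j : ℤ, b ^ (2 * j) = a ^ ((k : ℤ) * j) ∨ b ^ (2 * j) = -(a ^ ((k : ℤ) * j)) := by
      intro j
      rw [zpow_mul, hb2, zpow_mul]
      rcases Int.even_or_odd j with h | h
      · left; exact h.neg_zpow _
      · right; exact h.neg_zpow _
    rcases Int.even_or_odd' n with ⟨j, hj | hj⟩
    · rcases hbj j with h | h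
      · refine ⟨m + k * j, Or.inl ?_⟩
        rw [← hmn, hj, h, ← zpow_add]
      · refine ⟨m + k * j, Or.inr (Or.inl ?_)⟩
        rw [← hmn, hj, h, mul_neg, ← zpow_add]
    · rcases hbj j with h | h
      · refine ⟨m + k * j, Or.inr (Or.inr (Or.inl ?_))⟩
        rw [← hmn, hj, zpow_add b, h, zpow_one, zpow_add, mul_comm b, mul_assoc]
      · refine ⟨m + k * j, Or.inr (Or.inr (Or.inr ?_))⟩
        rw [← hmn, hj, zpow_add b, h, zpow_one, zpow_add, neg_mul, mul_neg, mul_comm b, mul_assoc]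
  obtain ⟨l, hl⟩ := key
  have hl' : a ^ l ∈ Subgroup.zpowers a := Subgroup.zpow_mem _ (Subgroup.mem_zpowers a) l
  rw [← mem_powers_iff_mem_zpowers] at hl'
  obtain ⟨l', hl'⟩ := hl'
  have hl2 : a ^ l' = a ^ l := hl'
  refine ⟨l', ?_⟩
  have hval : ((a ^ l : (ZMod q)ˣ) : ZMod q) = (p : ZMod q) ^ l' := by
    rw [← hl2, Units.val_pow_eq_pow_val, ha, Units.val_mk0]
  rcases hl with h | h | h | h
  · left
    have h5 := congrArg Units.val h
    rw [Units.val_mk0, hval] at h5
    exact h5.symm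
  · right; left
    have h5 := congrArg Units.val h
    rw [Units.val_mk0, Units.val_neg, hval] at h5
    rw [h5, neg_neg]
  · right; right; left
    have h5 := congrArg Units.val h
    rw [Units.val_mk0, Units.val_mul, hval, hb, Units.val_mk0] at h5
    exact h5.symm
  · right; right; right
    have h5 := congrArg Units.val h
    rw [Units.val_mk0, Units.val_neg, Units.val_mul, hval, hb, Units.val_mk0] at h5
    rw [h5, neg_neg]

lemma two_nonsquare (h : q % 8 = 3 ∨ q % 8 = 5) : (2 : ZMod q) ≠ 0 ∧ ¬ IsSquare (2 : ZMod q) := by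
  have hq2 : q ≠ 2 := by omega
  refine ⟨?_, ?_⟩
  · intro h2
    have h3 : ((2 : ℕ) : ZMod q) = 0 := by push_cast; exact h2
    rw [ZMod.natCast_eq_zero_iff] at h3
    have h4 := Nat.le_of_dvd (by norm_num) h3
    have h5 := (Fact.out : q.Prime).two_le
    omega
  · rw [ZMod.exists_sq_eq_two_iff hq2]
    omega

lemma neg_nonsquare (h : q % 4 = 3) : (-1 : ZMod q) ≠ 0 ∧ ¬ IsSquare (-1 : ZMod q) := by
  refine ⟨neg_ne_zero.mpr one_ne_zero, ?_⟩
  rw [ZMod.exists_sq_eq_neg_one_iff]
  omega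

lemma neg_four (h : q % 8 = 5) : ∃ r : ZMod q, r ^ 4 = -4 := by
  have h1 : IsSquare (-1 : ZMod q) := by
    rw [ZMod.exists_sq_eq_neg_one_iff]; omega
  obtain ⟨i, hi⟩ := h1
  refine ⟨1 + i, ?_⟩
  linear_combination (-(i ^ 2) - 4 * i - 5) * hi

lemma neg_two (h : q % 8 = 3) : ∃ r : ZMod q, r ^ 4 = -2 := by
  have hq2 : q ≠ 2 := by omega
  have h1 : IsSquare (-2 : ZMod q) := by
    rw [ZMod.exists_sq_eq_neg_two_iff hq2]; omega
  obtain ⟨r, hr⟩ := h1
  have h2 := two_nonsquare (q := q) (Or.inl h)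
  have hr0 : r ≠ 0 := by
    rintro rfl
    apply h2.1
    linear_combination -hr
  have h3 : IsSquare r ∨ IsSquare (-r) := by
    have h4 := neg_nonsquare (q := q) (by omega)
    by_cases h5 : IsSquare r
    · exact Or.inl h5
    · right
      have h7 : quadraticChar (ZMod q) r = -1 := (quadraticChar_neg_one_iff_not_isSquare).mpr h5
      have h8 : quadraticChar (ZMod q) (-1) = -1 := (quadraticChar_neg_one_iff_not_isSquare).mpr h4.2
      have h9 : quadraticChar (ZMod q) (-r) = 1 := by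
        rw [neg_eq_neg_one_mul, map_mul, h7, h8]; norm_num
      exact (quadraticChar_one_iff_isSquare (neg_ne_zero.mpr hr0)).mp h9
  rcases h3 with ⟨c, hc⟩ | ⟨c, hc⟩
  · refine ⟨c, ?_⟩
    have : c ^ 4 = (c * c) * (c * c) := by ring
    rw [this, ← hc, ← hr]
  · refine ⟨c, ?_⟩
    have : c ^ 4 = (c * c) * (c * c) := by ring
    rw [this, ← hc, hr]; ring

end arith

section rel

variable {p M q : ℕ} [NeZero M] [Fact q.Prime] {V : ZMod M → ℤ}

lemma q_mul_e {e : ℕ} (he : q * e = M) : (q : ZMod M) * (e : ZMod M) = 0 := by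
  rw [← Nat.cast_mul, he]; simp

/-- powers of `p` on sums -/
lemma V_pow (hV : DF p V) {v z : ZMod M} (hv : (q : ZMod M) * v = 0)
    (k : ℕ) (hz : (p : ZMod M) ^ k * z = z) (y : ZMod q) :
    V (z + ph v hv ((p : ZMod q) ^ k * y)) = V (z + ph v hv y) := by
  have h1 : (p : ZMod q) ^ k * y = ((p ^ k : ℕ) : ZMod q) * y := by push_cast; ring
  rw [h1, ph_mul]
  refine hV.eq_of k ?_
  push_cast
  rw [mul_add, hz]

lemma V_pow0 (hV : DF p V) {v : ZMod M} (hv : (q : ZMod M) * v = 0)
    (k : ℕ) (y : ZMod q) : V (ph v hv ((p : ZMod q) ^ k * y)) = V (ph v hv y) := by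
  have h := V_pow hV hv (z := 0) k (by rw [mul_zero]) y
  rwa [zero_add, zero_add] at h

/-- **The relation for minus four, characteristic one modulo four.** -/
theorem relA (hV : DF p V) {e d : ℕ} (he : q * e = M) (hd : 4 * d = M) (hq8 : q % 8 = 5)
    (hp4 : p % 4 = 1) (hpq : (p : ZMod q) ≠ 0) (hidx : (q - 1) ∣ 4 * orderOf (p : ZMod q))
    {z : ZMod M} (hz : z = (d : ZMod M) ∨ z = -(d : ZMod M)) {y : ZMod q} (hy : y ≠ 0) :
    V (ph (e : ZMod M) (q_mul_e he) y) + V (2 * ph (e : ZMod M) (q_mul_e he) y + 2 * z) +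
      V (-(2 * ph (e : ZMod M) (q_mul_e he) y) - z) +
      V (-ph (e : ZMod M) (q_mul_e he) y - z) = 0 := by
  set φ := ph (e : ZMod M) (q_mul_e he) with hφ
  have h4d : 4 * (d : ZMod M) = 0 := by
    have h1 : ((4 * d : ℕ) : ZMod M) = 0 := by rw [hd]; simp
    push_cast at h1
    exact h1
  have h4z : 4 * z = 0 := by
    rcases hz with rfl | rfl
    · exact h4d
    · linear_combination -h4d
  have h2z : 2 * z = 2 * (d : ZMod M) := by
    rcases hz with rfl | rfl
    · rfl
    · linear_combination -h4d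
  have hd2 : 2 * (2 * d) = M := by omega
  have hcast : ((2 * d : ℕ) : ZMod M) = 2 * z := by push_cast; rw [h2z]
  have H2 : ∀ a, V a + V (a + 2 * z) = V (2 * a) := by
    intro a
    have h := hV.two hd2 a
    rwa [hcast] at h
  have hpz : (p : ZMod M) * z = z := by
    obtain ⟨c, hc⟩ : ∃ c, p = 4 * c + 1 := ⟨p / 4, by omega⟩
    rw [hc]
    push_cast
    linear_combination (c : ZMod M) * h4z
  have hpkz : ∀ k : ℕ, (p : ZMod M) ^ k * z = z := by
    intro k
    induction k with
    | zero => simp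
    | succ k ih => rw [pow_succ, mul_assoc, hpz, ih]
  have hqz : (q : ZMod M) * z = z := by
    obtain ⟨c, hc⟩ : ∃ c, q = 4 * c + 1 := ⟨q / 4, by omega⟩
    rw [hc]
    push_cast
    linear_combination (c : ZMod M) * h4z
  obtain ⟨r, hr⟩ := neg_four (q := q) hq8
  have h2 := two_nonsquare (q := q) (Or.inr hq8)
  have h40 : (-4 : ZMod q) ≠ 0 := by
    intro h
    have h3 : (2 : ZMod q) * 2 = 0 := by linear_combination -h
    rcases mul_eq_zero.mp h3 with h4 | h4 <;> exact h2.1 h4
  obtain ⟨k, hk⟩ := pow_of_four hpq hidx h40 hr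
  have K4 : ∀ x : ZMod q, V (z + φ (-4 * x)) = V (z + φ x) := by
    intro x
    rw [← hk]
    exact V_pow hV _ k (hpkz k) x
  have F4 : ∀ x : ZMod q, V (φ (-4 * x)) = V (φ x) := by
    intro x
    rw [← hk]
    exact V_pow0 hV _ k x
  have Kp : ∀ x : ZMod q, V (z + φ ((p : ZMod q) * x)) = V (z + φ x) := by
    intro x
    have h := V_pow hV (q_mul_e he) 1 (hpkz 1) x
    rwa [pow_one] at h
  set T : ZMod q → ℤ := fun x => V (z + φ x) + V (z + φ (-1 * x)) + V (z + φ (2 * x)) +
    V (z + φ (-2 * x)) with hT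
  have hsum : ∑ x : (ZMod q)ˣ, V (z + φ (x : ZMod q)) = 0 := by
    rw [dist_units hV he (q_mul_e he) z, hqz, sub_self]
  have hT0 : ∀ x : ZMod q, x ≠ 0 → T x = 0 := by
    intro x hx
    refine zero_of_inv hpq hidx h2.1 h2.2 T ?_ ?_ ?_ hx
    · intro x
      simp only [hT]
      have e1 : -1 * ((p : ZMod q) * x) = (p : ZMod q) * (-1 * x) := by ring
      have e2 : 2 * ((p : ZMod q) * x) = (p : ZMod q) * (2 * x) := by ring
      have e3 : -2 * ((p : ZMod q) * x) = (p : ZMod q) * (-2 * x) := by ring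
      rw [e1, e2, e3, Kp, Kp, Kp, Kp]
    · intro x
      simp only [hT]
      have e1 : (2 : ZMod q) * (2 * x) = -4 * (-1 * x) := by ring
      have e2 : (-2 : ZMod q) * (2 * x) = -4 * x := by ring
      have e3 : (-1 : ZMod q) * (2 * x) = -2 * x := by ring
      rw [e1, e2, e3, K4, K4]
      ring
    · simp only [hT]
      have hs : ∀ c : ZMod q, c ≠ 0 → ∑ x : (ZMod q)ˣ, V (z + φ (c * (x : ZMod q))) = 0 := by
        intro c hc
        have h := sum_mul_unit (fun x => V (z + φ x)) (Units.mk0 c hc)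
        rw [Units.val_mk0] at h
        rw [h, hsum]
      rw [sum_add_distrib, sum_add_distrib, sum_add_distrib, hsum,
        hs (-1) (neg_ne_zero.mpr one_ne_zero), hs 2 h2.1, hs (-2) (neg_ne_zero.mpr h2.1)]
      norm_num
  have t0 := hT0 y hy
  simp only [hT] at t0
  have e2y : φ (2 * y) = 2 * φ y := ph_two _ y
  have en : φ (-1 * y) = -φ y := by rw [neg_one_mul, map_neg]
  have en2 : φ (-2 * y) = -(2 * φ y) := by rw [neg_mul, map_neg, e2y]
  rw [e2y, en, en2] at t0
  have f4 := F4 y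
  have e4 : φ (-4 * y) = -(4 * φ y) := by
    have : (-4 : ZMod q) * y = -(2 * (2 * y)) := by ring
    rw [this, map_neg, ph_two, ph_two]; ring
  rw [e4, hV.ng] at f4
  have f8 := F4 (2 * y)
  have e8 : φ (-4 * (2 * y)) = -(8 * φ y) := by
    have : (-4 : ZMod q) * (2 * y) = -(2 * (2 * (2 * y))) := by ring
    rw [this, map_neg, ph_two, ph_two, ph_two]; ring
  rw [e8, hV.ng, e2y] at f8
  -- distribution
  have d1 := H2 (z + φ y)
  have g1 : z + φ y + 2 * z = -(z + -φ y) := by linear_combination h4z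
  have g2 : 2 * (z + φ y) = 2 * φ y + 2 * z := by ring
  rw [g1, hV.ng, g2] at d1
  have d2 := H2 (2 * φ y)
  have g3 : 2 * (2 * φ y) = 4 * φ y := by ring
  rw [g3] at d2
  have d3 := H2 (z + 2 * φ y)
  have g4 : z + 2 * φ y + 2 * z = -(z + -(2 * φ y)) := by linear_combination h4z
  have g5 : 2 * (z + 2 * φ y) = 4 * φ y + 2 * z := by ring
  rw [g4, hV.ng, g5] at d3
  have d4 := H2 (4 * φ y)
  have g6 : 2 * (4 * φ y) = 8 * φ y := by ring
  rw [g6] at d4
  have n1 : V (-(2 * φ y) - z) = -V (z + 2 * φ y) := by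
    rw [← hV.ng]; congr 1; ring
  have n2 : V (-φ y - z) = -V (z + φ y) := by
    rw [← hV.ng]; congr 1; ring
  rw [n1, n2]
  linarith

/-- **The relation for minus two, characteristic one modulo eight.** -/
theorem relB (hV : DF p V) {e d : ℕ} (he : q * e = M) (hd : 8 * d = M) (hq8 : q % 8 = 3)
    (hp8 : p % 8 = 1) (hpq : (p : ZMod q) ≠ 0) (hidx : (q - 1) ∣ 4 * orderOf (p : ZMod q))
    {y : ZMod q} (hy : y ≠ 0) :
    V (-ph (e : ZMod M) (q_mul_e he) y) + V (ph (e : ZMod M) (q_mul_e he) y + d) +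
      V (ph (e : ZMod M) (q_mul_e he) y + 3 * d) +
      V (-ph (e : ZMod M) (q_mul_e he) y + 4 * d) = 0 := by
  set φ := ph (e : ZMod M) (q_mul_e he) with hφ
  set z : ZMod M := (d : ZMod M) with hz
  have h8z : 8 * z = 0 := by
    have h1 : ((8 * d : ℕ) : ZMod M) = 0 := by rw [hd]; simp
    push_cast at h1
    exact h1
  have hd2 : 2 * (4 * d) = M := by omega
  have hcast : ((4 * d : ℕ) : ZMod M) = 4 * z := by push_cast; rfl
  have H2 : ∀ a, V a + V (a + 4 * z) = V (2 * a) := by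
    intro a
    have h := hV.two hd2 a
    rwa [hcast] at h
  have hpz : (p : ZMod M) * z = z := by
    obtain ⟨c, hc⟩ : ∃ c, p = 8 * c + 1 := ⟨p / 8, by omega⟩
    rw [hc]
    push_cast
    linear_combination (c : ZMod M) * h8z
  have hpkz : ∀ (k : ℕ) (c : ZMod M), (p : ZMod M) ^ k * (c * z) = c * z := by
    intro k c
    induction k with
    | zero => simp
    | succ k ih =>
      have : (p : ZMod M) ^ (k + 1) * (c * z) = (p : ZMod M) ^ k * (c * ((p : ZMod M) * z)) := by
        ring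
      rw [this, hpz, ih]
  have hqz : (q : ZMod M) * z = 3 * z := by
    obtain ⟨c, hc⟩ : ∃ c, q = 8 * c + 3 := ⟨q / 8, by omega⟩
    rw [hc]
    push_cast
    linear_combination (c : ZMod M) * h8z
  obtain ⟨r, hr⟩ := neg_two (q := q) hq8
  have h2 := two_nonsquare (q := q) (Or.inl hq8)
  have hn := neg_nonsquare (q := q) (by omega)
  obtain ⟨k, hk⟩ := pow_of_four hpq hidx (neg_ne_zero.mpr h2.1) hr
  have F2 : ∀ x : ZMod q, V (φ (-2 * x)) = V (φ x) := by
    intro x
    rw [← hk]
    exact V_pow0 hV _ k x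
  have Kp : ∀ (c : ZMod M) (x : ZMod q), V (c * z + φ ((p : ZMod q) * x)) = V (c * z + φ x) := by
    intro c x
    have h := V_pow hV (q_mul_e he) 1 (hpkz 1 c) x
    rwa [pow_one] at h
  set T : ZMod q → ℤ := fun x => V (1 * z + φ x) + V (1 * z + φ (-1 * x)) + V (3 * z + φ x) +
    V (3 * z + φ (-1 * x)) with hT
  have hsum : ∀ c : ZMod M, ∑ x : (ZMod q)ˣ, V (c * z + φ (x : ZMod q)) =
      V (3 * c * z) - V (c * z) := by
    intro c
    rw [dist_units hV he (q_mul_e he) (c * z)]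
    have : (q : ZMod M) * (c * z) = 3 * c * z := by linear_combination c * hqz
    rw [this]
  have hT0 : T y = 0 := by
    refine zero_of_inv hpq hidx hn.1 hn.2 T ?_ ?_ ?_ hy
    · intro x
      simp only [hT]
      have e1 : -1 * ((p : ZMod q) * x) = (p : ZMod q) * (-1 * x) := by ring
      rw [e1, Kp, Kp, Kp, Kp]
    · intro x
      simp only [hT]
      have e1 : (-1 : ZMod q) * (-1 * x) = x := by ring
      rw [e1]
      ring
    · simp only [hT]
      have hs : ∀ c : ZMod M, ∑ x : (ZMod q)ˣ, V (c * z + φ (-1 * (x : ZMod q))) =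
          V (3 * c * z) - V (c * z) := by
        intro c
        have h := sum_mul_unit (fun x => V (c * z + φ x)) (Units.mk0 (-1 : ZMod q) hn.1)
        rw [Units.val_mk0] at h
        rw [h, hsum]
      rw [sum_add_distrib, sum_add_distrib, sum_add_distrib, hsum, hsum, hs, hs]
      have e9 : (3 : ZMod M) * 3 * z = 1 * z := by linear_combination h8z
      have e3 : (3 : ZMod M) * 1 * z = 3 * z := by ring
      rw [e9, e3]
      ring
  simp only [hT] at hT0
  have en : φ (-1 * y) = -φ y := by rw [neg_one_mul, map_neg]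
  rw [en, one_mul] at hT0
  have f2 := F2 y
  have e2 : φ (-2 * y) = -(2 * φ y) := by rw [neg_mul, map_neg, ph_two]
  rw [e2, hV.ng] at f2
  have f4 := F2 (2 * y)
  have e4 : φ (-2 * (2 * y)) = -(4 * φ y) := by
    have : (-2 : ZMod q) * (2 * y) = -(2 * (2 * y)) := by ring
    rw [this, map_neg, ph_two, ph_two]; ring
  rw [e4, hV.ng, ph_two] at f4
  have f8 := F2 (2 * (2 * y))
  have e8 : φ (-2 * (2 * (2 * y))) = -(8 * φ y) := by
    have : (-2 : ZMod q) * (2 * (2 * y)) = -(2 * (2 * (2 * y))) := by ring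
    rw [this, map_neg, ph_two, ph_two, ph_two]; ring
  have e44 : φ (2 * (2 * y)) = 4 * φ y := by rw [ph_two, ph_two]; ring
  rw [e8, hV.ng, e44] at f8
  -- distribution
  have d1 := H2 (z + φ y)
  have g1 : z + φ y + 4 * z = -(3 * z + -φ y) := by linear_combination h8z
  have g2 : 2 * (z + φ y) = 2 * φ y + 2 * z := by ring
  rw [g1, hV.ng, g2] at d1
  have d2 := H2 (3 * z + φ y)
  have g3 : 3 * z + φ y + 4 * z = -(z + -φ y) := by linear_combination h8z
  have g4 : 2 * (3 * z + φ y) = 2 * φ y + 2 * z + 4 * z := by ring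
  rw [g3, hV.ng, g4] at d2
  have d3 := H2 (2 * φ y + 2 * z)
  have g5 : 2 * (2 * φ y + 2 * z) = 4 * φ y + 4 * z := by ring
  rw [g5] at d3
  have d4 := H2 (4 * φ y)
  have g6 : 2 * (4 * φ y) = 8 * φ y := by ring
  rw [g6] at d4
  have d5 := H2 (φ y)
  have n1 : V (-φ y) = -V (φ y) := hV.ng _
  have n2 : V (-φ y + 4 * z) = -V (φ y + 4 * z) := by
    rw [← hV.ng]; congr 1; linear_combination h8z
  have n3 : V (φ y + z) = V (z + φ y) := by rw [add_comm]
  have n4 : V (φ y + 3 * z) = V (3 * z + φ y) := by rw [add_comm]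
  rw [n1, n2, n3, n4]
  linarith

end rel

end Pool.Agent.J4.H6.SI
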